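import Pool.Agent.N249.TF.Assem

set_option autoImplicit false

/-!
Families of tangent tubes: all exponents.
-/

open MeasureTheory Set ENNReal Real

namespace Pool.Agent.N249.TF

open Pool.Agent.N249.LR

variable {k : ℕ}

/-- The estimate for the families, finite exponents. -/
theorem fam_real (k : ℕ) {R q : ℝ} (hR : 0 ≤ R) (hq : ((k : ℝ) + 3) / ((k : ℝ) + 2) < q) :
    ∃ C : ℝ, 0 < C ∧ ∀ (δ : ℝ), 0 < δ → δ ≤ 1 → ∀ {ι : Type} (s : Finset ι) (e c P : ι → Eu k),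
      s.Nonempty → (∀ i ∈ s, ‖e i‖ = 1) → (∀ i ∈ s, Adm R δ (e i) (c i) (P i)) →
      (∀ i ∈ s, |inner ℝ (c i - P i) (e i)| ≤ R) →
      (∀ i ∈ s, ∀ j ∈ s, i ≠ j → δ ≤ ‖e i - e j‖) →
      eLpNorm (sumT δ s e c) (ENNReal.ofReal q) volume ≤
        ENNReal.ofReal (C * (δ ^ (k + 2) * (s.card : ℝ) ^ (q - 1 / ((k : ℝ) + 2))) ^ (1 / q)) := by
  rcases le_total q 2 with hq2 | hq2
  · exact fam_le_two k hR hq hq2
  have hk : (0 : ℝ) < (k : ℝ) + 2 := by positivity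
  have hk2 : ((k : ℝ) + 3) / ((k : ℝ) + 2) < 2 := by
    rw [div_lt_iff₀ hk]
    have : (0 : ℝ) ≤ k := Nat.cast_nonneg k
    linarith
  obtain ⟨C, hC, h2⟩ := fam_le_two k hR hk2 le_rfl
  have hq0 : 0 < q := by linarith
  refine ⟨(C ^ 2) ^ (1 / q), by positivity, ?_⟩
  intro δ hδ hδ1 ι s e c P hs he hA ht hsep
  have h3 := h2 δ hδ hδ1 s e c P hs he hA ht hsep
  have hN : (0 : ℝ) < s.card := by exact_mod_cast hs.card_pos
  set N : ℝ := (s.card : ℝ) with hNdef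
  have hf0 := sumT_nonneg (k := k) δ s e c
  have hfN := sumT_le (k := k) δ s e c
  set f := sumT δ s e c with hf
  set Y : ℝ := δ ^ (k + 2) * N ^ (2 - 1 / ((k : ℝ) + 2)) with hY
  have hY0 : 0 < Y := by rw [hY]; positivity
  have hfe : ∀ x, ‖f x‖ₑ ≤ ENNReal.ofReal N := by
    intro x
    rw [← ofReal_norm, Real.norm_of_nonneg (hf0 x)]
    exact ENNReal.ofReal_le_ofReal (hfN x)
  have h4 : ∫⁻ x, ‖f x‖ₑ ^ (2 : ℝ) ≤ ENNReal.ofReal (C ^ 2 * Y) := by
    rw [eLpNorm_eq_lintegral_rpow_enorm_toReal (by simp) ENNReal.ofReal_ne_top,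
      ENNReal.toReal_ofReal (by norm_num)] at h3
    have h5 := ENNReal.rpow_le_rpow h3 (show (0 : ℝ) ≤ 2 by norm_num)
    rw [← ENNReal.rpow_mul] at h5
    have e1 : (1 / (2 : ℝ)) * 2 = 1 := by norm_num
    rw [e1, ENNReal.rpow_one, ENNReal.ofReal_rpow_of_pos (by positivity)] at h5
    refine h5.trans (le_of_eq ?_)
    congr 1
    rw [Real.mul_rpow hC.le (by positivity), ← Real.rpow_mul (by positivity), e1, Real.rpow_one]
    congr 1
    exact_mod_cast Real.rpow_natCast C 2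
  have h5 : ∫⁻ x, ‖f x‖ₑ ^ q ≤
      ENNReal.ofReal (C ^ 2 * (δ ^ (k + 2) * N ^ (q - 1 / ((k : ℝ) + 2)))) := by
    calc ∫⁻ x, ‖f x‖ₑ ^ q ≤ ∫⁻ x, ENNReal.ofReal N ^ (q - 2) * ‖f x‖ₑ ^ (2 : ℝ) := by
          apply lintegral_mono
          intro x
          beta_reduce
          have e1 : q = (q - 2) + 2 := by ring
          conv_lhs => rw [e1, ENNReal.rpow_add_of_nonneg _ _ (by linarith) (by norm_num)]
          gcongr
          exact hfe x
      _ = ENNReal.ofReal N ^ (q - 2) * ∫⁻ x, ‖f x‖ₑ ^ (2 : ℝ) :=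
          lintegral_const_mul _ ((sumT_meas δ s e c).enorm.pow_const _)
      _ ≤ ENNReal.ofReal N ^ (q - 2) * ENNReal.ofReal (C ^ 2 * Y) := by gcongr
      _ = _ := by
          rw [ENNReal.ofReal_rpow_of_pos hN, ← ENNReal.ofReal_mul (by positivity)]
          congr 1
          have e2 : N ^ (q - 1 / ((k : ℝ) + 2)) = N ^ (q - 2) * N ^ (2 - 1 / ((k : ℝ) + 2)) := by
            rw [← Real.rpow_add hN]
            congr 1
            ring
          rw [hY, e2]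
          ring
  rw [eLpNorm_eq_lintegral_rpow_enorm_toReal (by simpa using hq0) ENNReal.ofReal_ne_top,
    ENNReal.toReal_ofReal hq0.le]
  refine (ENNReal.rpow_le_rpow h5 (by positivity)).trans (le_of_eq ?_)
  rw [ENNReal.ofReal_rpow_of_pos (by positivity), Real.mul_rpow (by positivity) (by positivity)]

/-- The estimate for the families, all exponents. -/
theorem fam_all (k : ℕ) {R : ℝ} (hR : 0 ≤ R) {q : ℝ≥0∞}
    (hq : ((k : ℝ≥0∞) + 3) / ((k : ℝ≥0∞) + 2) < q) :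
    ∃ C : ℝ, 0 < C ∧ ∀ (δ : ℝ), 0 < δ → δ ≤ 1 → ∀ {ι : Type} (s : Finset ι) (e c P : ι → Eu k),
      (∀ i ∈ s, ‖e i‖ = 1) → (∀ i ∈ s, Adm R δ (e i) (c i) (P i)) →
      (∀ i ∈ s, |inner ℝ (c i - P i) (e i)| ≤ R) →
      (∀ i ∈ s, ∀ j ∈ s, i ≠ j → δ ≤ ‖e i - e j‖) →
      eLpNorm (sumT δ s e c) q volume ≤
        ENNReal.ofReal (C * δ ^ (((k : ℝ) + 2) / q.toReal) *
          (s.card : ℝ) ^ (1 - 1 / (q.toReal * ((k : ℝ) + 2)))) := by
  have hk : (0 : ℝ) < (k : ℝ) + 2 := by positivity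
  have hempty : ∀ (δ : ℝ) {ι : Type} (e c : ι → Eu k), eLpNorm (sumT δ ∅ e c) q volume = 0 := by
    intro δ ι e c
    have : sumT δ (∅ : Finset ι) e c = 0 := by
      funext x
      simp [sumT]
    rw [this, eLpNorm_zero]
  by_cases hqt : q = ∞
  · subst hqt
    refine ⟨1, one_pos, ?_⟩
    intro δ hδ hδ1 ι s e c P he hA ht hsep
    have e1 : (1 : ℝ) * δ ^ (((k : ℝ) + 2) / (∞ : ℝ≥0∞).toReal) *
        (s.card : ℝ) ^ (1 - 1 / ((∞ : ℝ≥0∞).toReal * ((k : ℝ) + 2))) = s.card := by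
      simp
    rw [e1, eLpNorm_exponent_top]
    apply eLpNormEssSup_le_of_ae_bound
    filter_upwards with x
    rw [Real.norm_of_nonneg (sumT_nonneg δ s e c x)]
    exact sumT_le δ s e c x
  · obtain ⟨r, hr0, rfl⟩ : ∃ r : ℝ, 0 ≤ r ∧ q = ENNReal.ofReal r :=
      ⟨q.toReal, ENNReal.toReal_nonneg, (ENNReal.ofReal_toReal hqt).symm⟩
    have hqr : ((k : ℝ) + 3) / ((k : ℝ) + 2) < r := by
      have e1 : ((k : ℝ≥0∞) + 3) / ((k : ℝ≥0∞) + 2) =
          ENNReal.ofReal (((k : ℝ) + 3) / ((k : ℝ) + 2)) := by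
        rw [ENNReal.ofReal_div_of_pos hk, ENNReal.ofReal_add (by positivity) (by norm_num),
          ENNReal.ofReal_add (by positivity) (by norm_num)]
        simp
      rw [e1] at hq
      exact (ENNReal.ofReal_lt_ofReal_iff_of_nonneg (by positivity)).1 hq
    have hr : 0 < r := lt_trans (by positivity) hqr
    obtain ⟨C, hC, h⟩ := fam_real k hR hqr
    refine ⟨C, hC, ?_⟩
    intro δ hδ hδ1 ι s e c P he hA ht hsep
    rcases s.eq_empty_or_nonempty with hs | hs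
    · subst hs
      rw [hempty]
      exact zero_le
    refine (h δ hδ hδ1 s e c P hs he hA ht hsep).trans (le_of_eq ?_)
    have hN : (0 : ℝ) < s.card := by exact_mod_cast hs.card_pos
    rw [ENNReal.toReal_ofReal hr.le]
    congr 1
    rw [Real.mul_rpow (by positivity) (by positivity), ← Real.rpow_mul hN.le, ← Real.rpow_natCast,
      ← Real.rpow_mul hδ.le, mul_assoc]
    congr 2
    · congr 1
      push_cast
      ring
    · congr 1
      field_simp

end Pool.Agent.N249.TF
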