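import Pool.Agent.N249.TF.Box

set_option autoImplicit false

/-!
Families of tangent tubes: the estimate for the families.
-/

open MeasureTheory Set ENNReal Real

namespace Pool.Agent.N249.TF

open Pool.Agent.N249.LR

variable {k : ℕ}

theorem ch_meas : Measurable (ch : Zf k → Eu k) := by
  have h1 : Measurable (fun q : ℂ × (ℝ × (Fin k → ℝ)) =>
      ((q.1, (q.2.1 + ‖q.1‖ ^ 2, q.2.2)) : ℂ × (ℝ × (Fin k → ℝ)))) := by fun_prop
  exact emb_mp.measurable.comp h1

theorem ch_mp : MeasurePreserving (ch : Zf k → Eu k) volume volume := by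
  refine ⟨ch_meas, ?_⟩
  ext s hs
  rw [Measure.map_apply ch_meas hs]
  have hF : Measurable (s.indicator (fun _ => (1 : ℝ≥0∞))) := measurable_const.indicator hs
  have h1 := gg_int (k := k) hF
  rw [lintegral_indicator hs, setLIntegral_const, one_mul] at h1
  rw [← h1]
  have h2 : volume (ch ⁻¹' s : Set (Zf k)) =
      ∫⁻ z : Zf k, s.indicator (fun _ => (1 : ℝ≥0∞)) (ch z) := by
    have e : (fun z : Zf k => s.indicator (fun _ => (1 : ℝ≥0∞)) (ch z)) =
        (ch ⁻¹' s).indicator (fun _ => 1) := by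
      funext z
      rfl
    rw [e, lintegral_indicator (ch_meas hs), setLIntegral_const, one_mul]
  rw [h2, Measure.volume_eq_prod,
    lintegral_prod (fun z : Zf k => s.indicator (fun _ => (1 : ℝ≥0∞)) (ch z))
      (hF.comp ch_meas).aemeasurable]
  rfl

/-- The estimate for a single tube. -/
theorem single {R δ : ℝ} (hR : 0 ≤ R) (hδ : 0 < δ) (hδ1 : δ ≤ 1) {e c P : Eu k} (he : ‖e‖ = 1)
    (h : Adm R δ e c P) (ht : |inner ℝ (c - P) e| ≤ R) {u : ℝ} (hu : |u - up e P| ≤ δ)
    {U : Yf k → ℝ} (hU : Measurable U) (hUu : ∀ ω ∈ BT (ck k * δ) (fr e), U ω = u) (z : Zf k) :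
    (tub δ e c).indicator (fun _ => (1 : ℝ)) (ch z) ≤
      ((ck k)⁻¹ ^ (k + 2) * Real.exp (π * (uR R + 1) ^ 2)) * (δ ^ (k + 1))⁻¹ *
        ∫ ω in BT (ck k * δ) (fr e), KK {r | |r| ≤ SR R} (MR R) (caR R * δ) (cbR R * δ)
          (gam δ) U (ω, z) := by
  have hT := fr_tan hR he h
  have hck := ck_pos k
  have hckδ : 0 < ck k * δ := by positivity
  have hck1 : ck k * δ ≤ 1 := by
    have := ck_le k
    nlinarith
  have hk0 : ∀ ω, 0 ≤ KK {r | |r| ≤ SR R} (MR R) (caR R * δ) (cbR R * δ) (gam δ) U (ω, z) := by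
    intro ω
    unfold KK
    apply indicator_nonneg
    intro q _
    exact (gam_pos hδ _).le
  have hfin : volume (BT (ck k * δ) (fr e)) ≠ ∞ :=
    ((BT_le hckδ (fr e)).trans_lt ENNReal.ofReal_lt_top).ne
  have hSm : MeasurableSet {r : ℝ | |r| ≤ SR R} := measurableSet_le (by fun_prop) (by fun_prop)
  by_cases hz : ch z ∈ tub δ e c
  · rw [indicator_of_mem hz]
    set g : ℝ := δ⁻¹ * Real.exp (-(π * (uR R + 1) ^ 2)) with hg
    have hg0 : 0 < g := by rw [hg]; positivity
    have hlow : ∀ ω ∈ BT (ck k * δ) (fr e),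
        g ≤ KK {r | |r| ≤ SR R} (MR R) (caR R * δ) (cbR R * δ) (gam δ) U (ω, z) := by
      intro ω hω
      have hω' : ω ∈ BT δ (fr e) := by
        have h1 : ck k * δ ≤ δ := by
          have := ck_le k
          nlinarith
        obtain ⟨a1, ⟨a2, a3⟩, a4⟩ := hω
        exact ⟨fun i => (a1 i).trans h1, ⟨a2.trans h1, a3⟩, a4.trans h1⟩
      obtain ⟨b1, b2, b3, b4⟩ := tube_frame hT hδ hδ1 ht hz hω'
      unfold KK
      rw [indicator_of_mem (show (ω, z) ∈ CS {r | |r| ≤ SR R} (MR R) (caR R * δ) (cbR R * δ) from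
        ⟨b2, b3, b4⟩)]
      simp only
      rw [hUu ω hω, hg]
      unfold gam
      apply mul_le_mul_of_nonneg_left _ (by positivity)
      apply Real.exp_le_exp.2
      have h3 : |u - uu ω z| ≤ (uR R + 1) * δ := by
        have : u - uu ω z = (u - up e P) - (uu ω z - up e P) := by ring
        rw [this]
        refine (abs_sub _ _).trans ?_
        linarith
      have h4 : (u - uu ω z) ^ 2 ≤ ((uR R + 1) * δ) ^ 2 := by
        rw [← sq_abs]
        exact pow_le_pow_left₀ (abs_nonneg _) h3 2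
      have h5 : π / δ ^ 2 * (u - uu ω z) ^ 2 ≤ π * (uR R + 1) ^ 2 := by
        rw [div_mul_eq_mul_div, div_le_iff₀ (by positivity)]
        nlinarith [Real.pi_pos]
      linarith
    have hint : g * (volume (BT (ck k * δ) (fr e))).toReal ≤
        ∫ ω in BT (ck k * δ) (fr e), KK {r | |r| ≤ SR R} (MR R) (caR R * δ) (cbR R * δ)
          (gam δ) U (ω, z) := by
      have hi := KK_integrableOn hSm (MR R) (caR R * δ) (cbR R * δ) (gam_meas δ) (c := δ⁻¹)
        (fun u => by rw [abs_of_pos (gam_pos hδ u)]; exact gam_le hδ u) hU hfin z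
      have hc : Integrable (fun _ : Yf k => g) (volume.restrict (BT (ck k * δ) (fr e))) := by
        rw [integrable_const_iff]
        right
        constructor
        rw [Measure.restrict_apply_univ]
        exact lt_top_iff_ne_top.2 hfin
      have h6 := setIntegral_mono_on hc hi (BT_meas _ _) hlow
      rw [setIntegral_const, smul_eq_mul, measureReal_def] at h6
      linarith
    have hvol : (ck k * δ) ^ (k + 2) ≤ (volume (BT (ck k * δ) (fr e))).toReal := by
      have h7 := BT_ge (k := k) hckδ hck1 (ω₀ := fr e) (Complex.arg_mem_Ioc (yy e))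
      have h8 := ENNReal.toReal_mono hfin h7
      rwa [ENNReal.toReal_ofReal (by positivity)] at h8
    set J := ∫ ω in BT (ck k * δ) (fr e), KK {r | |r| ≤ SR R} (MR R) (caR R * δ) (cbR R * δ)
          (gam δ) U (ω, z)
    have h9 : g * (ck k * δ) ^ (k + 2) ≤ J := (mul_le_mul_of_nonneg_left hvol hg0.le).trans hint
    have h10 : 1 = ((ck k)⁻¹ ^ (k + 2) * Real.exp (π * (uR R + 1) ^ 2)) * (δ ^ (k + 1))⁻¹ *
        (g * (ck k * δ) ^ (k + 2)) := by
      rw [hg, mul_pow, Real.exp_neg, pow_succ δ (k + 1), inv_pow]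
      field_simp
    calc (1 : ℝ) = ((ck k)⁻¹ ^ (k + 2) * Real.exp (π * (uR R + 1) ^ 2)) * (δ ^ (k + 1))⁻¹ *
        (g * (ck k * δ) ^ (k + 2)) := h10
      _ ≤ _ := mul_le_mul_of_nonneg_left h9 (by positivity)
  · rw [indicator_of_notMem hz]
    have : 0 ≤ ∫ ω in BT (ck k * δ) (fr e), KK {r | |r| ≤ SR R} (MR R) (caR R * δ) (cbR R * δ)
          (gam δ) U (ω, z) := integral_nonneg fun ω => hk0 ω
    positivity

/-- The sum of the indicator functions. -/
noncomputable def sumT {ι : Type*} (δ : ℝ) (s : Finset ι) (e c : ι → Eu k) (x : Eu k) : ℝ :=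
  ∑ i ∈ s, (tub δ (e i) (c i)).indicator (fun _ => (1 : ℝ)) x

theorem sumT_meas {ι : Type*} (δ : ℝ) (s : Finset ι) (e c : ι → Eu k) :
    Measurable (sumT δ s e c) := by
  unfold sumT
  exact Finset.measurable_sum _ fun i _ => measurable_const.indicator (tub_meas _ _ _)

theorem sumT_nonneg {ι : Type*} (δ : ℝ) (s : Finset ι) (e c : ι → Eu k) (x : Eu k) :
    0 ≤ sumT δ s e c x :=
  Finset.sum_nonneg fun i _ => indicator_nonneg (fun _ _ => zero_le_one) _

theorem sumT_le {ι : Type*} (δ : ℝ) (s : Finset ι) (e c : ι → Eu k) (x : Eu k) :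
    sumT δ s e c x ≤ s.card := by
  unfold sumT
  calc ∑ i ∈ s, (tub δ (e i) (c i)).indicator (fun _ => (1 : ℝ)) x ≤ ∑ _i ∈ s, (1 : ℝ) := by
        apply Finset.sum_le_sum
        intro i _
        exact indicator_le_self' (fun _ _ => zero_le_one) x
    _ = _ := by simp

/-- The estimate for the families, `q ≤ 2`. -/
theorem fam_le_two (k : ℕ) {R q : ℝ} (hR : 0 ≤ R) (hq : ((k : ℝ) + 3) / ((k : ℝ) + 2) < q)
    (hq2 : q ≤ 2) :
    ∃ C : ℝ, 0 < C ∧ ∀ (δ : ℝ), 0 < δ → δ ≤ 1 → ∀ {ι : Type} (s : Finset ι) (e c P : ι → Eu k),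
      s.Nonempty → (∀ i ∈ s, ‖e i‖ = 1) → (∀ i ∈ s, Adm R δ (e i) (c i) (P i)) →
      (∀ i ∈ s, |inner ℝ (c i - P i) (e i)| ≤ R) →
      (∀ i ∈ s, ∀ j ∈ s, i ≠ j → δ ≤ ‖e i - e j‖) →
      eLpNorm (sumT δ s e c) (ENNReal.ofReal q) volume ≤
        ENNReal.ofReal (C * (δ ^ (k + 2) * (s.card : ℝ) ^ (q - 1 / ((k : ℝ) + 2))) ^ (1 / q)) := by
  have hck := ck_pos k
  have hR1 : 0 ≤ R + 1 := by linarith
  obtain ⟨C, hC, htot⟩ := total k (R := R + 1) (S := SR R) (ca := caR R) (cb := cbR R)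
    (cE := (2 * ck k) ^ (k + 2)) (q := q) hR1 (by unfold SR; positivity) (by unfold caR; positivity)
    (by unfold cbR; positivity) (by
      unfold caR cbR
      rw [mul_pow, ← pow_mul]
      have : 0 ≤ (1 + R) ^ 4 := by positivity
      norm_num
      linarith) (by positivity) hq hq2
  set C0 : ℝ := (ck k)⁻¹ ^ (k + 2) * Real.exp (π * (uR R + 1) ^ 2) with hC0
  have hC00 : 0 < C0 := by rw [hC0]; positivity
  refine ⟨C0 * C, by positivity, ?_⟩
  intro δ hδ hδ1 ι s e c P hs he hA ht hsep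
  have hN : (0 : ℝ) < s.card := by exact_mod_cast hs.card_pos
  have hckδ : 0 < ck k * δ := by positivity
  have hurat : ∀ i, ∃ u : ℚ, |(u : ℝ) - up (e i) (P i)| ≤ δ := by
    intro i
    obtain ⟨u, h1, h2⟩ := exists_rat_btwn (show up (e i) (P i) < up (e i) (P i) + δ by linarith)
    refine ⟨u, ?_⟩
    rw [abs_le]
    constructor <;> linarith
  choose u hu using hurat
  set B : ι → Set (Yf k) := fun i => BT (ck k * δ) (fr (e i)) with hB
  have hBm : ∀ i, MeasurableSet (B i) := fun i => BT_meas _ _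
  have hBf : ∀ i, volume (B i) ≠ ∞ := fun i =>
    ((BT_le hckδ (fr (e i))).trans_lt ENNReal.ofReal_lt_top).ne
  have hdisj : ∀ i ∈ s, ∀ j ∈ s, i ≠ j → Disjoint (B i) (B j) := by
    intro i hi j hj hij
    exact BT_disj (fr_tan hR (he i hi) (hA i hi)) (fr_tan hR (he j hj) (hA j hj)) (he i hi)
      (he j hj) hδ (hsep i hi j hj hij)
  set E : Set (Yf k) := ⋃ i ∈ s, B i with hE
  classical
  set U : Yf k → ℝ := fun ω => ∑ i ∈ s, (B i).indicator (fun _ => ((u i : ℚ) : ℝ)) ω with hU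
  have hUm : Measurable U := Finset.measurable_sum _ fun i _ => measurable_const.indicator (hBm i)
  have hUB : ∀ i ∈ s, ∀ ω ∈ B i, U ω = u i := by
    intro i hi ω hω
    rw [hU]
    simp only
    rw [Finset.sum_eq_single i]
    · rw [indicator_of_mem hω]
    · intro j hj hji
      rw [indicator_of_notMem]
      intro hc
      exact (Set.disjoint_left.1 (hdisj j hj i hi hji)) hc hω
    · intro h
      exact absurd hi h
  have hF : Fam k (R + 1) ((2 * ck k) ^ (k + 2)) δ s.card U E := by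
    refine ⟨hUm, ?_, ?_, ?_, ?_⟩
    · intro ω
      refine ⟨∑ i ∈ s, if ω ∈ B i then u i else 0, ?_⟩
      rw [hU]
      push_cast
      apply Finset.sum_congr rfl
      intro i _
      by_cases h : ω ∈ B i
      · rw [indicator_of_mem h, if_pos h]
      · rw [indicator_of_notMem h, if_neg h]
        simp
    · exact Finset.measurableSet_biUnion _ fun i _ => hBm i
    · intro ω hω
      simp only [hE, mem_iUnion] at hω
      obtain ⟨i, hi, hωi⟩ := hω
      obtain ⟨h1, ⟨h2, h3⟩, h4⟩ := hωi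
      refine ⟨fun j => ?_, h3⟩
      have hT := fr_tan hR (he i hi) (hA i hi)
      have h5 := hT.vR j
      have h6 := h1 j
      have h7 : ck k * δ ≤ 1 := by
        have := ck_le k
        nlinarith
      have e1 : ω.1 j = (ω.1 j - (fr (e i)).1 j) + (fr (e i)).1 j := by ring
      rw [e1]
      refine (abs_add_le _ _).trans ?_
      linarith
    · calc volume E ≤ ∑ i ∈ s, volume (B i) := measure_biUnion_finset_le _ _
        _ ≤ ∑ _i ∈ s, ENNReal.ofReal ((2 * (ck k * δ)) ^ (k + 2)) :=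
            Finset.sum_le_sum fun i _ => BT_le hckδ _
        _ = ENNReal.ofReal ((2 * ck k) ^ (k + 2) * (s.card : ℝ) * δ ^ (k + 2)) := by
            rw [Finset.sum_const, nsmul_eq_mul, ← ENNReal.ofReal_natCast,
              ← ENNReal.ofReal_mul (by positivity)]
            congr 1
            have : (2 * (ck k * δ)) ^ (k + 2) = (2 * ck k) ^ (k + 2) * δ ^ (k + 2) := by
              rw [← mul_pow]; congr 1; ring
            rw [this]
            ring
  have hSm : MeasurableSet {r : ℝ | |r| ≤ SR R} := measurableSet_le (by fun_prop) (by fun_prop)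
  have hgb : ∀ u, |gam δ u| ≤ δ⁻¹ := fun u => by
    rw [abs_of_pos (gam_pos hδ u)]; exact gam_le hδ u
  have hpt : ∀ z : Zf k, sumT δ s e c (ch z) ≤ C0 * (δ ^ (k + 1))⁻¹ *
      FD {r | |r| ≤ SR R} (MR R) (caR R * δ) (cbR R * δ) (gam δ) U E z := by
    intro z
    have h1 : FD {r | |r| ≤ SR R} (MR R) (caR R * δ) (cbR R * δ) (gam δ) U E z =
        ∑ i ∈ s, ∫ ω in B i, KK {r | |r| ≤ SR R} (MR R) (caR R * δ) (cbR R * δ)
          (gam δ) U (ω, z) := by
      unfold FD
      rw [hE, integral_biUnion_finset s (fun i _ => hBm i) (fun i hi j hj hij =>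
        hdisj i hi j hj hij)]
      intro i _
      exact KK_integrableOn hSm (MR R) (caR R * δ) (cbR R * δ) (gam_meas δ) hgb hUm (hBf i) z
    rw [h1, Finset.mul_sum]
    apply Finset.sum_le_sum
    intro i hi
    exact single hR hδ hδ1 (he i hi) (hA i hi) (ht i hi) (hu i) hUm
      (fun ω hω => hUB i hi ω hω) z
  have hest := htot (MR R) δ s.card U E (by unfold MR; positivity) hδ hδ1 hN hF
  set F := FD {r | |r| ≤ SR R} (MR R) (caR R * δ) (cbR R * δ) (gam δ) U E with hFdef
  rw [← eLpNorm_comp_measurePreserving (sumT_meas δ s e c).aestronglyMeasurable (ch_mp (k := k))]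
  calc eLpNorm (sumT δ s e c ∘ ch) (ENNReal.ofReal q) volume
      ≤ eLpNorm ((C0 * (δ ^ (k + 1))⁻¹) • F) (ENNReal.ofReal q) volume := by
        apply eLpNorm_mono
        intro z
        simp only [Function.comp_apply, Pi.smul_apply, smul_eq_mul, Real.norm_eq_abs]
        rw [abs_of_nonneg (sumT_nonneg δ s e c _)]
        exact (hpt z).trans (le_abs_self _)
    _ = ENNReal.ofReal (C0 * (δ ^ (k + 1))⁻¹) * eLpNorm F (ENNReal.ofReal q) volume := by
        rw [eLpNorm_const_smul, ← ofReal_norm, Real.norm_of_nonneg (by positivity)]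
    _ ≤ ENNReal.ofReal (C0 * (δ ^ (k + 1))⁻¹) * ENNReal.ofReal (C * (δ ^ (k + 1) *
          (δ ^ (k + 2) * (s.card : ℝ) ^ (q - 1 / ((k : ℝ) + 2))) ^ (1 / q))) := by gcongr
    _ = _ := by
        rw [← ENNReal.ofReal_mul (by positivity)]
        congr 1
        field_simp

end Pool.Agent.N249.TF
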