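import Pool.Agent.N249.TF.Frame

set_option autoImplicit false

/-!
Families of tangent tubes: the boxes of the frames.
-/

open MeasureTheory Set ENNReal Real

namespace Pool.Agent.N249.TF

open Pool.Agent.N249.LR

variable {k : ℕ}

theorem BT_eq (s : ℝ) (ω₀ : Yf k) : BT s ω₀ =
    (Set.pi univ fun i => Icc (ω₀.1 i - s) (ω₀.1 i + s)) ×ˢ
      ((Icc (ω₀.2.1 - s) (ω₀.2.1 + s) ∩ Ioc (-π) π) ×ˢ Icc (ω₀.2.2 - s) (ω₀.2.2 + s)) := by
  ext ω
  simp only [BT, mem_ofPred_eq, mem_prod, mem_pi, mem_univ, forall_true_left, mem_Icc, mem_inter_iff,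
    abs_le]
  constructor
  · rintro ⟨h1, ⟨h2, h3⟩, h4⟩
    refine ⟨fun i => ⟨?_, ?_⟩, ⟨⟨?_, ?_⟩, h3⟩, ?_, ?_⟩
    · linarith [(h1 i).1]
    · linarith [(h1 i).2]
    · linarith
    · linarith
    · linarith
    · linarith
  · rintro ⟨h1, ⟨⟨h2, h2'⟩, h3⟩, h4, h5⟩
    refine ⟨fun i => ⟨?_, ?_⟩, ⟨⟨?_, ?_⟩, h3⟩, ?_, ?_⟩
    · linarith [(h1 i).1]
    · linarith [(h1 i).2]
    · linarith
    · linarith
    · linarith
    · linarith

theorem BT_meas (s : ℝ) (ω₀ : Yf k) : MeasurableSet (BT s ω₀) := by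
  rw [BT_eq]
  exact (MeasurableSet.univ_pi fun i => measurableSet_Icc).prod
    ((measurableSet_Icc.inter measurableSet_Ioc).prod measurableSet_Icc)

theorem BT_vol (s : ℝ) (ω₀ : Yf k) : volume (BT s ω₀) = ENNReal.ofReal (2 * s) ^ k *
    (volume (Icc (ω₀.2.1 - s) (ω₀.2.1 + s) ∩ Ioc (-π) π) * ENNReal.ofReal (2 * s)) := by
  rw [BT_eq, Measure.volume_eq_prod, Measure.prod_prod, Measure.volume_eq_prod ℝ,
    Measure.prod_prod, volume_pi_pi, Real.volume_Icc]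
  simp only [Real.volume_Icc]
  have e2 : ∀ x : ℝ, x + s - (x - s) = 2 * s := by intro x; ring
  simp only [e2, Finset.prod_const, Finset.card_univ, Fintype.card_fin]

theorem BT_le {s : ℝ} (hs : 0 < s) (ω₀ : Yf k) :
    volume (BT s ω₀) ≤ ENNReal.ofReal ((2 * s) ^ (k + 2)) := by
  rw [BT_vol]
  calc ENNReal.ofReal (2 * s) ^ k *
      (volume (Icc (ω₀.2.1 - s) (ω₀.2.1 + s) ∩ Ioc (-π) π) * ENNReal.ofReal (2 * s))
      ≤ ENNReal.ofReal (2 * s) ^ k * (ENNReal.ofReal (2 * s) * ENNReal.ofReal (2 * s)) := by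
        gcongr
        refine (measure_mono inter_subset_left).trans (le_of_eq ?_)
        rw [Real.volume_Icc]
        congr 1
        ring
    _ = _ := by
        rw [ENNReal.ofReal_pow (by positivity)]
        ring

theorem BT_ge {s : ℝ} (hs : 0 < s) (hs1 : s ≤ 1) {ω₀ : Yf k} (hω : ω₀.2.1 ∈ Ioc (-π) π) :
    ENNReal.ofReal (s ^ (k + 2)) ≤ volume (BT s ω₀) := by
  have hπ := Real.pi_gt_three
  have hJ : ENNReal.ofReal s ≤ volume (Icc (ω₀.2.1 - s) (ω₀.2.1 + s) ∩ Ioc (-π) π) := by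
    rcases le_total ω₀.2.1 0 with h | h
    · calc ENNReal.ofReal s = volume (Icc ω₀.2.1 (ω₀.2.1 + s)) := by
            rw [Real.volume_Icc]
            congr 1
            ring
        _ ≤ _ := by
            apply measure_mono
            intro φ hφ
            refine ⟨⟨by linarith [hφ.1], hφ.2⟩, ?_, ?_⟩
            · linarith [hφ.1, hω.1]
            · linarith [hφ.2]
    · calc ENNReal.ofReal s = volume (Icc (ω₀.2.1 - s) ω₀.2.1) := by
            rw [Real.volume_Icc]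
            congr 1
            ring
        _ ≤ _ := by
            apply measure_mono
            intro φ hφ
            refine ⟨⟨hφ.1, by linarith [hφ.2]⟩, ?_, ?_⟩
            · linarith [hφ.1]
            · linarith [hφ.2, hω.2]
  rw [BT_vol, ENNReal.ofReal_pow hs.le]
  have h2 : ENNReal.ofReal s ≤ ENNReal.ofReal (2 * s) := by
    apply ENNReal.ofReal_le_ofReal
    linarith
  calc ENNReal.ofReal s ^ (k + 2) = ENNReal.ofReal s ^ k * (ENNReal.ofReal s * ENNReal.ofReal s) := by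
        ring
    _ ≤ _ := by gcongr

/-- The scale of the boxes. -/
noncomputable def ck (k : ℕ) : ℝ := 1 / (4 * ((k : ℝ) + 7))

theorem ck_pos (k : ℕ) : 0 < ck k := by
  unfold ck
  positivity

theorem ck_le (k : ℕ) : ck k ≤ 1 := by
  unfold ck
  rw [div_le_iff₀ (by positivity)]
  have : (0 : ℝ) ≤ k := Nat.cast_nonneg k
  linarith

theorem sep_aux {E : Type*} [NormedAddCommGroup E] [NormedSpace ℝ E] {e e' : E}
    (he : ‖e‖ = 1) (he' : ‖e'‖ = 1) {l l' : ℝ} (hl : 0 < l) (hl1 : l ≤ 1) (hl' : 0 < l') :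
    ‖e - e'‖ ≤ 2 * ‖l⁻¹ • e - l'⁻¹ • e'‖ := by
  set X := l⁻¹ • e with hX
  set X' := l'⁻¹ • e' with hX'
  have nX : ‖X‖ = l⁻¹ := by
    rw [hX, norm_smul, he, mul_one, Real.norm_of_nonneg (by positivity)]
  have nX' : ‖X'‖ = l'⁻¹ := by
    rw [hX', norm_smul, he', mul_one, Real.norm_of_nonneg (by positivity)]
  have e1 : e - e' = l • (X - X') + (l - l') • X' := by
    have h1 : e = l • X := by rw [hX, smul_inv_smul₀ hl.ne']
    have h2 : e' = l' • X' := by rw [hX', smul_inv_smul₀ hl'.ne']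
    rw [h1, h2, smul_sub, sub_smul]
    rw [← h1, ← h2]
    abel
  have h3 : |l - l'| * l'⁻¹ = l * |‖X'‖ - ‖X‖| := by
    rw [nX, nX', ← abs_of_pos hl, ← abs_mul, abs_of_pos hl, ← abs_of_pos (inv_pos.2 hl'),
      ← abs_mul, abs_of_pos (inv_pos.2 hl')]
    congr 1
    field_simp
  have h4 : |‖X'‖ - ‖X‖| ≤ ‖X - X'‖ := by
    rw [norm_sub_rev]
    exact abs_norm_sub_norm_le _ _
  calc ‖e - e'‖ ≤ ‖l • (X - X')‖ + ‖(l - l') • X'‖ := by
        rw [e1]
        exact norm_add_le _ _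
    _ = l * ‖X - X'‖ + |l - l'| * l'⁻¹ := by
        rw [norm_smul, norm_smul, nX', Real.norm_of_nonneg hl.le, Real.norm_eq_abs]
    _ ≤ 2 * ‖X - X'‖ := by
        rw [h3]
        have h5 := norm_nonneg (X - X')
        have h6 : l * |‖X'‖ - ‖X‖| ≤ 1 * ‖X - X'‖ :=
          mul_le_mul hl1 h4 (abs_nonneg _) zero_le_one
        nlinarith

/-- Directions with nearby frames. -/
theorem sep {R R' δ δ' φ φ' lam lam' m m' u0 u0' t0 t0' : ℝ} {v v' : Fin k → ℝ}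
    {e c P e' c' P' : Eu k} (h : Tan R δ φ lam m u0 t0 v e c P)
    (h' : Tan R' δ' φ' lam' m' u0' t0' v' e' c' P') (he : ‖e‖ = 1) (he' : ‖e'‖ = 1) {s : ℝ}
    (hs : 0 ≤ s) (hv : ∀ i, |v i - v' i| ≤ s) (hφ : |φ - φ'| ≤ s) (hm : |m - m'| ≤ s) :
    ‖e - e'‖ ^ 2 ≤ 4 * ((k : ℝ) + 6) * s ^ 2 := by
  have h1 := sep_aux he he' h.l0 h.l1 h'.l0
  have h2 : ‖lam⁻¹ • e - lam'⁻¹ • e'‖ ^ 2 ≤ ((k : ℝ) + 6) * s ^ 2 := by
    rw [EuclideanSpace.norm_sq_eq, Fin.sum_univ_succ, Fin.sum_univ_succ, Fin.sum_univ_succ]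
    simp only [Real.norm_eq_abs, sq_abs, PiLp.sub_apply, PiLp.smul_apply, smul_eq_mul]
    have l0 := h.l0
    have l0' := h'.l0
    have a1 : (Fin.succ 0 : Fin (k + 3)) = 1 := rfl
    have a2 : (Fin.succ (Fin.succ 0) : Fin (k + 3)) = 2 := rfl
    have c0 : lam⁻¹ * e 0 - lam'⁻¹ * e' 0 = Real.cos φ - Real.cos φ' := by
      rw [h.e0, h'.e0]
      field_simp
    have c1 : lam⁻¹ * e 1 - lam'⁻¹ * e' 1 = Real.sin φ - Real.sin φ' := by
      rw [h.e1, h'.e1]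
      field_simp
    have c2 : lam⁻¹ * e 2 - lam'⁻¹ * e' 2 = 2 * (m - m') := by
      rw [h.e2, h'.e2, h.hm, h'.hm, h.e0, h.e1, h'.e0, h'.e1]
      field_simp
    have c3 : ∀ i : Fin k, lam⁻¹ * e i.succ.succ.succ - lam'⁻¹ * e' i.succ.succ.succ =
        v i - v' i := by
      intro i
      rw [h.es, h'.es]
      field_simp
    rw [a1, a2, c0, c1, c2]
    simp only [c3]
    have d0 : (Real.cos φ - Real.cos φ') ^ 2 ≤ s ^ 2 := by
      rw [← sq_abs]
      exact pow_le_pow_left₀ (abs_nonneg _) ((Real.abs_cos_sub_cos_le φ φ').trans hφ) 2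
    have d1 : (Real.sin φ - Real.sin φ') ^ 2 ≤ s ^ 2 := by
      rw [← sq_abs]
      exact pow_le_pow_left₀ (abs_nonneg _) ((Real.abs_sin_sub_sin_le φ φ').trans hφ) 2
    have d2 : (m - m') ^ 2 ≤ s ^ 2 := by
      rw [← sq_abs]
      exact pow_le_pow_left₀ (abs_nonneg _) hm 2
    have d3 : ∑ i : Fin k, (v i - v' i) ^ 2 ≤ k * s ^ 2 := by
      calc ∑ i : Fin k, (v i - v' i) ^ 2 ≤ ∑ _i : Fin k, s ^ 2 := by
            apply Finset.sum_le_sum
            intro i _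
            rw [← sq_abs]
            exact pow_le_pow_left₀ (abs_nonneg _) (hv i) 2
        _ = _ := by simp
    nlinarith
  have h3 : ‖e - e'‖ ^ 2 ≤ (2 * ‖lam⁻¹ • e - lam'⁻¹ • e'‖) ^ 2 :=
    pow_le_pow_left₀ (norm_nonneg _) h1 2
  nlinarith

/-- The boxes of separated directions are disjoint. -/
theorem BT_disj {R R' δ δ' φ φ' lam lam' m m' u0 u0' t0 t0' : ℝ} {v v' : Fin k → ℝ}
    {e c P e' c' P' : Eu k} (h : Tan R δ φ lam m u0 t0 v e c P)
    (h' : Tan R' δ' φ' lam' m' u0' t0' v' e' c' P') (he : ‖e‖ = 1) (he' : ‖e'‖ = 1) {d : ℝ}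
    (hd : 0 < d) (hee : d ≤ ‖e - e'‖) :
    Disjoint (BT (ck k * d) (v, (φ, m))) (BT (ck k * d) (v', (φ', m'))) := by
  rw [Set.disjoint_left]
  rintro ω ⟨h1, ⟨h2, -⟩, h3⟩ ⟨h1', ⟨h2', -⟩, h3'⟩
  simp only at h1 h2 h3 h1' h2' h3'
  have hc := ck_pos k
  have key : ∀ x y z : ℝ, |z - x| ≤ ck k * d → |z - y| ≤ ck k * d → |x - y| ≤ 2 * ck k * d := by
    intro x y z hx hy
    have : x - y = (z - y) - (z - x) := by ring
    rw [this]
    refine (abs_sub _ _).trans ?_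
    linarith
  have h4 := sep h h' he he' (s := 2 * ck k * d) (by positivity)
    (fun i => key _ _ _ (h1 i) (h1' i)) (key _ _ _ h2 h2') (key _ _ _ h3 h3')
  have h5 : d ^ 2 ≤ ‖e - e'‖ ^ 2 := pow_le_pow_left₀ hd.le hee 2
  have h6 : 4 * ((k : ℝ) + 6) * (2 * ck k * d) ^ 2 < d ^ 2 := by
    unfold ck
    have hk : (0 : ℝ) ≤ k := Nat.cast_nonneg k
    have e1 : 4 * ((k : ℝ) + 6) * (2 * (1 / (4 * ((k : ℝ) + 7))) * d) ^ 2 =
        (((k : ℝ) + 6) / ((k : ℝ) + 7) ^ 2) * d ^ 2 := by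
      field_simp
      ring
    rw [e1]
    have e2 : ((k : ℝ) + 6) / ((k : ℝ) + 7) ^ 2 < 1 := by
      rw [div_lt_one (by positivity)]
      nlinarith
    have e3 : 0 < d ^ 2 := by positivity
    nlinarith
  linarith

end Pool.Agent.N249.TF
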