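import Pool.Agent.N249.TF.Ker

set_option autoImplicit false

/-!
Families of tangent tubes: the dual function and its norms.
-/

open MeasureTheory Set ENNReal Real

namespace Pool.Agent.N249.TF

open Pool.Agent.N249.LR

variable {k : ℕ}

/-- Frames `(v, (φ, m))`. -/
abbrev Yf (k : ℕ) : Type := (Fin k → ℝ) × (ℝ × ℝ)

/-- Points `(y, p)`. -/
abbrev Zf (k : ℕ) : Type := ℂ × (ℝ × (Fin k → ℝ))

/-- The position `r` of a point in a frame. -/
noncomputable def rr (ω : Yf k) (z : Zf k) : ℝ := cx z.1 ω.2.1 - ω.2.2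

/-- The transversal position `u` of a point in a frame. -/
noncomputable def uu (ω : Yf k) (z : Zf k) : ℝ := cy z.1 ω.2.1

theorem rr_meas : Measurable (fun q : Yf k × Zf k => rr q.1 q.2) := by
  unfold rr cx
  fun_prop

theorem uu_meas : Measurable (fun q : Yf k × Zf k => uu q.1 q.2) := by
  unfold uu cy
  fun_prop

/-- The set of the kernel. -/
def CS (A : Set ℝ) (M a b : ℝ) : Set (Yf k × Zf k) :=
  {q | rr q.1 q.2 ∈ A ∧ ‖q.2.1‖ ≤ M ∧ q.2.2 ∈ Bx a b q.1.1 (rr q.1 q.2)}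

theorem CS_meas {A : Set ℝ} (hA : MeasurableSet A) (M a b : ℝ) :
    MeasurableSet (CS A M a b : Set (Yf k × Zf k)) := by
  have h1 : MeasurableSet {q : Yf k × Zf k | rr q.1 q.2 ∈ A} := rr_meas hA
  have h2 : MeasurableSet {q : Yf k × Zf k | ‖q.2.1‖ ≤ M} :=
    measurableSet_le (by fun_prop) (by fun_prop)
  have h3 : MeasurableSet {q : Yf k × Zf k | q.2.2 ∈ Bx a b q.1.1 (rr q.1 q.2)} := by
    have e : {q : Yf k × Zf k | q.2.2 ∈ Bx a b q.1.1 (rr q.1 q.2)} =
        {q | |q.2.2.1 + (rr q.1 q.2) ^ 2| ≤ a} ∩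
          ⋂ i, {q | |q.2.2.2 i - rr q.1 q.2 * q.1.1 i| ≤ b} := by
      ext q
      simp [Bx]
    rw [e]
    have hr := rr_meas (k := k)
    apply MeasurableSet.inter
    · exact measurableSet_le (by fun_prop) (by fun_prop)
    · exact MeasurableSet.iInter fun i => measurableSet_le (by fun_prop) (by fun_prop)
  exact h1.inter (h2.inter h3)

/-- The kernel. -/
noncomputable def KK (A : Set ℝ) (M a b : ℝ) (κ : ℝ → ℝ) (U : Yf k → ℝ) (q : Yf k × Zf k) : ℝ :=
  (CS A M a b).indicator (fun q => κ (U q.1 - uu q.1 q.2)) q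

theorem KK_meas {A : Set ℝ} (hA : MeasurableSet A) (M a b : ℝ) {κ : ℝ → ℝ} (hκ : Measurable κ)
    {U : Yf k → ℝ} (hU : Measurable U) : Measurable (KK A M a b κ U) := by
  unfold KK
  apply Measurable.indicator _ (CS_meas hA M a b)
  apply hκ.comp
  exact (hU.comp measurable_fst).sub uu_meas

theorem KK_bd {A : Set ℝ} {M a b : ℝ} {κ : ℝ → ℝ} {U : Yf k → ℝ} {c : ℝ} (hκ : ∀ u, |κ u| ≤ c)
    (q : Yf k × Zf k) : ‖KK A M a b κ U q‖ ≤ c := by
  unfold KK
  have hc : 0 ≤ c := (abs_nonneg _).trans (hκ 0)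
  by_cases hq : q ∈ CS A M a b
  · rw [indicator_of_mem hq]
    exact hκ _
  · rw [indicator_of_notMem hq, norm_zero]
    exact hc

/-- The dual function. -/
noncomputable def FD (A : Set ℝ) (M a b : ℝ) (κ : ℝ → ℝ) (U : Yf k → ℝ) (E : Set (Yf k))
    (z : Zf k) : ℝ := ∫ ω in E, KK A M a b κ U (ω, z)

theorem FD_meas {A : Set ℝ} (hA : MeasurableSet A) (M a b : ℝ) {κ : ℝ → ℝ} (hκ : Measurable κ)
    {U : Yf k → ℝ} (hU : Measurable U) (E : Set (Yf k)) : Measurable (FD A M a b κ U E) := by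
  have h1 : StronglyMeasurable (fun p : Zf k × Yf k => KK A M a b κ U (p.2, p.1)) := by
    apply Measurable.stronglyMeasurable
    exact (KK_meas hA M a b hκ hU).comp (by fun_prop)
  exact (h1.integral_prod_right' (ν := (volume : Measure (Yf k)).restrict E)).measurable

/-- The bound of the maximum. -/
theorem FD_sup {A : Set ℝ} {M a b : ℝ} {κ : ℝ → ℝ} {U : Yf k → ℝ} {c : ℝ} (hκ : ∀ u, |κ u| ≤ c)
    (E : Set (Yf k)) (z : Zf k) :
    ‖FD A M a b κ U E z‖ₑ ≤ ENNReal.ofReal c * volume E := by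
  unfold FD
  refine (enorm_integral_le_lintegral_enorm _).trans ?_
  calc ∫⁻ ω in E, ‖KK A M a b κ U (ω, z)‖ₑ ≤ ∫⁻ _ω in E, ENNReal.ofReal c := by
        apply lintegral_mono
        intro ω
        beta_reduce
        rw [← ofReal_norm]
        exact ENNReal.ofReal_le_ofReal (KK_bd hκ _)
    _ = _ := by rw [setLIntegral_const]

/-- The change of variables of a frame. -/
theorem chg_mp (φ m : ℝ) : MeasurePreserving
    (fun q : ℝ × (ℝ × (ℝ × (Fin k → ℝ))) => ((rot φ (m + q.2.1, q.1), q.2.2) : Zf k))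
    volume volume := by
  have h1 : MeasurePreserving (MeasurableEquiv.prodAssoc :
      (ℝ × ℝ) × (ℝ × (Fin k → ℝ)) ≃ᵐ ℝ × (ℝ × (ℝ × (Fin k → ℝ)))).symm volume volume :=
    volume_preserving_prodAssoc.symm
  have h2 : MeasurePreserving (Prod.swap : ℝ × ℝ → ℝ × ℝ) volume volume :=
    Measure.measurePreserving_swap
  have h3 : MeasurePreserving (fun p : ℝ × ℝ => ((m, (0 : ℝ)) : ℝ × ℝ) + p) volume volume :=
    measurePreserving_add_left volume ((m, (0 : ℝ)) : ℝ × ℝ)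
  have h4 := ((rot_mp φ).comp (h3.comp h2)).prod
    (MeasurePreserving.id (volume : Measure (ℝ × (Fin k → ℝ))))
  have h5 := h4.comp h1
  have e : (fun q : ℝ × (ℝ × (ℝ × (Fin k → ℝ))) => ((rot φ (m + q.2.1, q.1), q.2.2) : Zf k)) =
      (Prod.map (rot φ ∘ (fun p : ℝ × ℝ => ((m, (0 : ℝ)) : ℝ × ℝ) + p) ∘ Prod.swap) id) ∘
        (MeasurableEquiv.prodAssoc :
      (ℝ × ℝ) × (ℝ × (Fin k → ℝ)) ≃ᵐ ℝ × (ℝ × (ℝ × (Fin k → ℝ)))).symm := by
    funext q
    simp [MeasurableEquiv.prodAssoc]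
  rw [e]
  exact h5

theorem chg {H : Zf k → ℝ≥0∞} (hH : Measurable H) (φ m : ℝ) :
    ∫⁻ z, H z = ∫⁻ u', ∫⁻ r, ∫⁻ p, H (rot φ (m + r, u'), p) := by
  have h := chg_mp (k := k) φ m
  rw [← h.lintegral_comp hH, Measure.volume_eq_prod ℝ,
    lintegral_prod (fun q : ℝ × (ℝ × (ℝ × (Fin k → ℝ))) => H (rot φ (m + q.2.1, q.1), q.2.2))
      (hH.comp h.measurable).aemeasurable]
  apply lintegral_congr
  intro u'
  rw [Measure.volume_eq_prod ℝ,
    lintegral_prod (fun q : ℝ × (ℝ × (Fin k → ℝ)) => H (rot φ (m + q.1, u'), q.2))]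
  exact ((hH.comp h.measurable).comp (g := fun q : ℝ × (ℝ × (ℝ × (Fin k → ℝ))) =>
    H (rot φ (m + q.2.1, q.1), q.2.2)) (f := fun q : ℝ × (ℝ × (Fin k → ℝ)) => (u', q))
    (by fun_prop)).aemeasurable

theorem chgB {H : Zf k → ℂ} (hHm : Measurable H) (hH : Integrable H) (φ m : ℝ) :
    ∫ z, H z = ∫ u', ∫ r, ∫ p, H (rot φ (m + r, u'), p) := by
  have h := chg_mp (k := k) φ m
  have hi : Integrable (fun q : ℝ × (ℝ × (ℝ × (Fin k → ℝ))) =>
      H (rot φ (m + q.2.1, q.1), q.2.2)) (volume.prod volume) :=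
    h.integrable_comp_of_integrable hH
  have e1 : ∫ z, H z = ∫ q : ℝ × (ℝ × (ℝ × (Fin k → ℝ))),
      H (rot φ (m + q.2.1, q.1), q.2.2) := by
    rw [← h.map_eq, integral_map h.measurable.aemeasurable hHm.aestronglyMeasurable]
  rw [e1, Measure.volume_eq_prod ℝ, integral_prod _ hi]
  apply integral_congr_ae
  filter_upwards [hi.prod_right_ae] with u' hu'
  rw [Measure.volume_eq_prod ℝ] at hu'
  rw [Measure.volume_eq_prod ℝ, integral_prod _ hu']

theorem rr_rot (v : Fin k → ℝ) (φ m r u' : ℝ) (p : ℝ × (Fin k → ℝ)) :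
    rr (v, (φ, m)) (rot φ (m + r, u'), p) = r := by
  unfold rr
  simp only
  rw [cx_rot]
  ring

theorem uu_rot (v : Fin k → ℝ) (φ m r u' : ℝ) (p : ℝ × (Fin k → ℝ)) :
    uu (v, (φ, m)) (rot φ (m + r, u'), p) = u' := by
  unfold uu
  simp only
  rw [cy_rot]

/-- The integral of the kernel. -/
theorem KK_int' {A : Set ℝ} (hA : MeasurableSet A) (M a b : ℝ) {κ : ℝ → ℝ}
    (hκm' : Measurable κ) (hκ1 : ∫⁻ u, ‖κ u‖ₑ ≤ 2) {U : Yf k → ℝ} (hU : Measurable U) (ω : Yf k) :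
    ∫⁻ z, ‖KK A M a b κ U (ω, z)‖ₑ ≤ 2 * (volume A * bxv k a b) := by
  obtain ⟨v, φ, m⟩ := ω
  have hm : Measurable (fun z => ‖KK A M a b κ U ((v, (φ, m)), z)‖ₑ) :=
    ((KK_meas hA M a b hκm' hU).comp (by fun_prop)).enorm
  rw [chg hm φ m]
  have h1 : ∀ u' r, ∫⁻ p, ‖KK A M a b κ U ((v, (φ, m)), (rot φ (m + r, u'), p))‖ₑ ≤
      ‖κ (U (v, (φ, m)) - u')‖ₑ * (A.indicator (fun _ => 1) r * bxv k a b) := by
    intro u' r
    by_cases hr : r ∈ A
    · rw [indicator_of_mem hr, one_mul, ← Bx_vol a b v r]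
      calc ∫⁻ p, ‖KK A M a b κ U ((v, (φ, m)), (rot φ (m + r, u'), p))‖ₑ
          ≤ ∫⁻ p, (Bx a b v r).indicator (fun _ => ‖κ (U (v, (φ, m)) - u')‖ₑ) p := by
            apply lintegral_mono
            intro p
            unfold KK
            beta_reduce
            by_cases hp : p ∈ Bx a b v r
            · rw [indicator_of_mem hp]
              by_cases hc : (((v, (φ, m)), (rot φ (m + r, u'), p)) : Yf k × Zf k) ∈ CS A M a b
              · rw [indicator_of_mem hc, uu_rot]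
              · rw [indicator_of_notMem hc, enorm_zero]
                exact zero_le
            · have hc : (((v, (φ, m)), (rot φ (m + r, u'), p)) : Yf k × Zf k) ∉ CS A M a b := by
                intro hc
                apply hp
                have := hc.2.2
                simp only [rr_rot] at this
                exact this
              rw [indicator_of_notMem hc, enorm_zero]
              exact zero_le
        _ = _ := by
            rw [lintegral_indicator (Bx_meas a b v r), setLIntegral_const]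
    · have hc : ∀ p, (((v, (φ, m)), (rot φ (m + r, u'), p)) : Yf k × Zf k) ∉ CS A M a b := by
        intro p hc
        apply hr
        have := hc.1
        simp only [rr_rot] at this
        exact this
      have : ∀ p, ‖KK A M a b κ U ((v, (φ, m)), (rot φ (m + r, u'), p))‖ₑ = 0 := by
        intro p
        unfold KK
        rw [indicator_of_notMem (hc p), enorm_zero]
      simp [this]
  have hκm : Measurable (fun u' : ℝ => ‖κ (U (v, (φ, m)) - u')‖ₑ) :=
    (hκm'.comp (by fun_prop)).enorm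
  calc ∫⁻ u', ∫⁻ r, ∫⁻ p, ‖KK A M a b κ U ((v, (φ, m)), (rot φ (m + r, u'), p))‖ₑ
      ≤ ∫⁻ u', ∫⁻ r, ‖κ (U (v, (φ, m)) - u')‖ₑ * (A.indicator (fun _ => 1) r * bxv k a b) :=
        lintegral_mono fun u' => lintegral_mono fun r => h1 u' r
    _ = ∫⁻ u', ‖κ (U (v, (φ, m)) - u')‖ₑ * (volume A * bxv k a b) := by
        apply lintegral_congr
        intro u'
        have hAm : Measurable (A.indicator (fun _ => (1 : ℝ≥0∞))) := measurable_const.indicator hA
        rw [lintegral_const_mul _ (hAm.mul_const _), lintegral_mul_const _ hAm,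
          lintegral_indicator hA, setLIntegral_const, one_mul]
    _ = (∫⁻ u', ‖κ (U (v, (φ, m)) - u')‖ₑ) * (volume A * bxv k a b) :=
        lintegral_mul_const _ hκm
    _ ≤ _ := by
        gcongr
        rw [lintegral_sub_left_eq_self (μ := (volume : Measure ℝ)) (fun u => ‖κ u‖ₑ)]
        exact hκ1

theorem KK_int {A : Set ℝ} (hA : MeasurableSet A) (M a b : ℝ) {κ : ℝ → ℝ} {c : ℝ}
    (hκ : Ker κ c) {U : Yf k → ℝ} (hU : Measurable U) (ω : Yf k) :
    ∫⁻ z, ‖KK A M a b κ U (ω, z)‖ₑ ≤ 2 * (volume A * bxv k a b) :=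
  KK_int' hA M a b hκ.meas hκ.l1 hU ω

/-- The integral of the dual function. -/
theorem FD_l1' {A : Set ℝ} (hA : MeasurableSet A) (M a b : ℝ) {κ : ℝ → ℝ}
    (hκm : Measurable κ) (hκ1 : ∫⁻ u, ‖κ u‖ₑ ≤ 2) {U : Yf k → ℝ} (hU : Measurable U)
    (E : Set (Yf k)) :
    ∫⁻ z, ‖FD A M a b κ U E z‖ₑ ≤ 2 * (volume A * bxv k a b) * volume E := by
  calc ∫⁻ z, ‖FD A M a b κ U E z‖ₑ ≤ ∫⁻ z, ∫⁻ ω in E, ‖KK A M a b κ U (ω, z)‖ₑ :=
        lintegral_mono fun z => enorm_integral_le_lintegral_enorm _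
    _ = ∫⁻ ω in E, ∫⁻ z, ‖KK A M a b κ U (ω, z)‖ₑ := by
        rw [lintegral_lintegral_swap]
        apply Measurable.aemeasurable
        exact ((KK_meas hA M a b hκm hU).comp (g := KK A M a b κ U)
          (f := fun q : Zf k × Yf k => (q.2, q.1)) (by fun_prop)).enorm
    _ ≤ ∫⁻ _ω in E, 2 * (volume A * bxv k a b) :=
        lintegral_mono fun ω => KK_int' hA M a b hκm hκ1 hU ω
    _ = _ := by rw [setLIntegral_const]

theorem FD_l1 {A : Set ℝ} (hA : MeasurableSet A) (M a b : ℝ) {κ : ℝ → ℝ} {c : ℝ}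
    (hκ : Ker κ c) {U : Yf k → ℝ} (hU : Measurable U) (E : Set (Yf k)) :
    ∫⁻ z, ‖FD A M a b κ U E z‖ₑ ≤ 2 * (volume A * bxv k a b) * volume E :=
  FD_l1' hA M a b hκ.meas hκ.l1 hU E

theorem KK_integrableOn {A : Set ℝ} (hA : MeasurableSet A) (M a b : ℝ) {κ : ℝ → ℝ}
    (hκm : Measurable κ) {c : ℝ} (hκ : ∀ u, |κ u| ≤ c) {U : Yf k → ℝ} (hU : Measurable U)
    {E : Set (Yf k)} (hE : volume E ≠ ∞) (z : Zf k) :
    Integrable (fun ω => KK A M a b κ U (ω, z)) (volume.restrict E) := by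
  have : IsFiniteMeasure (volume.restrict E) := ⟨by
    rw [Measure.restrict_apply_univ]; exact lt_top_iff_ne_top.2 hE⟩
  refine Integrable.of_bound (C := c) ?_ ?_
  · exact ((KK_meas hA M a b hκm hU).comp (by fun_prop)).aestronglyMeasurable
  · filter_upwards with ω
    exact KK_bd hκ _

/-- Additivity in the kernel. -/
theorem FD_add {A : Set ℝ} (hA : MeasurableSet A) (M a b : ℝ) {κ κ₁ κ₂ : ℝ → ℝ}
    (h1m : Measurable κ₁) (h2m : Measurable κ₂) {c₁ c₂ : ℝ} (h1 : ∀ u, |κ₁ u| ≤ c₁)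
    (h2 : ∀ u, |κ₂ u| ≤ c₂) (h : ∀ u, κ u = κ₁ u + κ₂ u) {U : Yf k → ℝ} (hU : Measurable U)
    {E : Set (Yf k)} (hE : volume E ≠ ∞) (z : Zf k) :
    FD A M a b κ U E z = FD A M a b κ₁ U E z + FD A M a b κ₂ U E z := by
  unfold FD
  rw [← integral_add (KK_integrableOn hA M a b h1m h1 hU hE z)
    (KK_integrableOn hA M a b h2m h2 hU hE z)]
  congr 1
  funext ω
  unfold KK
  by_cases hq : (ω, z) ∈ CS A M a b
  · rw [indicator_of_mem hq, indicator_of_mem hq, indicator_of_mem hq, h]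
  · rw [indicator_of_notMem hq, indicator_of_notMem hq, indicator_of_notMem hq, add_zero]

/-- Additivity in the set of positions. -/
theorem FD_union {A A₁ A₂ : Set ℝ} (hA₁ : MeasurableSet A₁) (hA₂ : MeasurableSet A₂)
    (hA : A = A₁ ∪ A₂) (hd : Disjoint A₁ A₂) (M a b : ℝ) {κ : ℝ → ℝ}
    (hκm : Measurable κ) {c : ℝ} (hκ : ∀ u, |κ u| ≤ c) {U : Yf k → ℝ} (hU : Measurable U)
    {E : Set (Yf k)} (hE : volume E ≠ ∞) (z : Zf k) :
    FD A M a b κ U E z = FD A₁ M a b κ U E z + FD A₂ M a b κ U E z := by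
  unfold FD
  rw [← integral_add (KK_integrableOn hA₁ M a b hκm hκ hU hE z)
    (KK_integrableOn hA₂ M a b hκm hκ hU hE z)]
  congr 1
  funext ω
  unfold KK
  by_cases h1 : (ω, z) ∈ CS A₁ M a b
  · have h2 : (ω, z) ∉ CS A₂ M a b := fun hc => (Set.disjoint_left.1 hd) h1.1 hc.1
    have h3 : (ω, z) ∈ CS A M a b := ⟨by rw [hA]; exact Or.inl h1.1, h1.2⟩
    rw [indicator_of_mem h1, indicator_of_notMem h2, indicator_of_mem h3, add_zero]
  · by_cases h2 : (ω, z) ∈ CS A₂ M a b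
    · have h3 : (ω, z) ∈ CS A M a b := ⟨by rw [hA]; exact Or.inr h2.1, h2.2⟩
      rw [indicator_of_notMem h1, indicator_of_mem h2, indicator_of_mem h3, zero_add]
    · have h3 : (ω, z) ∉ CS A M a b := by
        intro hc
        have hc1 := hc.1
        rw [hA] at hc1
        rcases hc1 with h | h
        · exact h1 ⟨h, hc.2⟩
        · exact h2 ⟨h, hc.2⟩
      rw [indicator_of_notMem h1, indicator_of_notMem h2, indicator_of_notMem h3, add_zero]

end Pool.Agent.N249.TF
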