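import Pool.Agent.N249.TF.Sum

set_option autoImplicit false

/-!
Families of tangent tubes: the estimate for the dual function.
-/

open MeasureTheory Set ENNReal Real

namespace Pool.Agent.N249.TF

open Pool.Agent.N249.LR

variable {k : ℕ}

theorem eLp_le {f : Zf k → ℝ} {q X : ℝ} (hq : 0 < q) (hX : 0 < X)
    (h : ∫⁻ z, ‖f z‖ₑ ^ q ≤ ENNReal.ofReal X) :
    eLpNorm f (ENNReal.ofReal q) volume ≤ ENNReal.ofReal (X ^ (1 / q)) := by
  rw [eLpNorm_eq_lintegral_rpow_enorm_toReal (by simpa using hq) ENNReal.ofReal_ne_top,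
    ENNReal.toReal_ofReal hq.le, ← ENNReal.ofReal_rpow_of_pos hX]
  gcongr

theorem gam_dec {δ : ℝ} (hδ : 0 < δ) {A : Set ℝ} (hA : MeasurableSet A) (M a b : ℝ)
    {U : Yf k → ℝ} (hU : Measurable U) {E : Set (Yf k)} (hE : volume E ≠ ∞) (I : ℕ) (z : Zf k) :
    FD A M a b (gam δ) U E z = ∑ i ∈ Finset.range I, FD A M a b (kd (δ * 2 ^ i)) U E z +
      FD A M a b (gam (δ * 2 ^ I)) U E z := by
  induction I with
  | zero => simp
  | succ I ih =>
    rw [ih, Finset.sum_range_succ, add_assoc]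
    congr 1
    have hd : 0 < δ * 2 ^ I := by positivity
    have hd2 : 0 < δ * 2 ^ (I + 1) := by positivity
    refine FD_add hA M a b (kd_ker hd).meas (gam_meas _) (kd_ker hd).sup (c₂ := (δ * 2 ^ (I + 1))⁻¹)
      ?_ ?_ hU hE z
    · intro u
      rw [abs_of_pos (gam_pos hd2 u)]
      exact gam_le hd2 u
    · intro u
      unfold kd
      have : 2 * (δ * 2 ^ I) = δ * 2 ^ (I + 1) := by ring
      rw [this]
      ring

/-- The annuli. -/
def An (S ρ : ℝ) (l : ℕ) : Set ℝ := {r | ρ * 2 ^ l < |r| ∧ |r| ≤ ρ * 2 ^ (l + 1) ∧ |r| ≤ S}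

theorem An_meas (S ρ : ℝ) (l : ℕ) : MeasurableSet (An S ρ l) := by
  have h1 : MeasurableSet {r : ℝ | ρ * 2 ^ l < |r|} := measurableSet_lt (by fun_prop) (by fun_prop)
  have h2 : MeasurableSet {r : ℝ | |r| ≤ ρ * 2 ^ (l + 1)} :=
    measurableSet_le (by fun_prop) (by fun_prop)
  have h3 : MeasurableSet {r : ℝ | |r| ≤ S} := measurableSet_le (by fun_prop) (by fun_prop)
  exact h1.inter (h2.inter h3)

/-- The intervals. -/
def In (S ρ : ℝ) : Set ℝ := {r | |r| ≤ ρ ∧ |r| ≤ S}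

theorem In_meas (S ρ : ℝ) : MeasurableSet (In S ρ) := by
  have h2 : MeasurableSet {r : ℝ | |r| ≤ ρ} := measurableSet_le (by fun_prop) (by fun_prop)
  have h3 : MeasurableSet {r : ℝ | |r| ≤ S} := measurableSet_le (by fun_prop) (by fun_prop)
  exact h2.inter h3

theorem An_dec {S ρ : ℝ} (hρ : 0 < ρ) (M a b : ℝ) {κ : ℝ → ℝ} (hκm : Measurable κ) {c : ℝ}
    (hκ : ∀ u, |κ u| ≤ c) {U : Yf k → ℝ} (hU : Measurable U) {E : Set (Yf k)}
    (hE : volume E ≠ ∞) (L : ℕ) (z : Zf k) :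
    FD (In S (ρ * 2 ^ L)) M a b κ U E z = FD (In S ρ) M a b κ U E z +
      ∑ l ∈ Finset.range L, FD (An S ρ l) M a b κ U E z := by
  induction L with
  | zero => simp
  | succ L ih =>
    rw [Finset.sum_range_succ, ← add_assoc, ← ih]
    refine FD_union (In_meas _ _) (An_meas _ _ _) ?_ ?_ M a b hκm hκ hU hE z
    · ext r
      simp only [In, An, mem_ofPred_eq, mem_union]
      have h2 : ρ * 2 ^ L ≤ ρ * 2 ^ (L + 1) := by
        rw [pow_succ]
        have : 0 < ρ * 2 ^ L := by positivity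
        nlinarith
      constructor
      · rintro ⟨h3, h4⟩
        by_cases h : |r| ≤ ρ * 2 ^ L
        · exact Or.inl ⟨h, h4⟩
        · exact Or.inr ⟨not_le.1 h, h3, h4⟩
      · rintro (⟨h3, h4⟩ | ⟨_, h4, h5⟩)
        · exact ⟨h3.trans h2, h4⟩
        · exact ⟨h4, h5⟩
    · rw [Set.disjoint_left]
      intro r h1 h2
      exact absurd h1.1 (not_le.2 h2.1)

theorem near {R S M ca cb cE q β δ N : ℝ} (hR : 0 ≤ R) (hS : 0 ≤ S) (hca : 0 < ca)
    (hcb : 0 < cb) (hcE : 0 < cE) (hq1 : 1 ≤ q)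
    (hβ : 2 * β = q - ((k : ℝ) + 3) / ((k : ℝ) + 2)) (hδ : 0 < δ)
    (hN : 0 < N) {U : Yf k → ℝ} {E : Set (Yf k)} (hF : Fam k R cE δ N U E) :
    ∫⁻ z, ‖FD (In S (N ^ (-(1 / ((k : ℝ) + 2))))) M (ca * δ) (cb * δ) (gam δ) U E z‖ₑ ^ q ≤
      ENNReal.ofReal (CC k R S ca cb cE ^ q * ((δ ^ (k + 1)) ^ q *
        (δ ^ (k + 2) * N ^ (1 + 2 * β)))) := by
  set C := CC k R S ca cb cE with hC
  set B : ℝ := 2 * ca * (2 * cb) ^ k with hB
  have hB0 : 0 < B := by rw [hB]; positivity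
  have hπ := Real.pi_pos
  have hC1 : cE ≤ C := by
    rw [hC, CC, ← hB]
    have h1 : 0 ≤ 8 * B * cE := by positivity
    have h2 : 0 ≤ cE * (5 * ((4 * π * S + 2) * (B ^ 2 * (3 * (1 + R) ^ k)))) := by positivity
    linarith
  have hC2 : 8 * B * cE ≤ C := by
    rw [hC, CC, ← hB]
    have h2 : 0 ≤ cE * (5 * ((4 * π * S + 2) * (B ^ 2 * (3 * (1 + R) ^ k)))) := by positivity
    linarith
  have hC0 : 0 < C := lt_of_lt_of_le hcE hC1
  set ρ : ℝ := N ^ (-(1 / ((k : ℝ) + 2))) with hρ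
  have hρ0 : 0 < ρ := by rw [hρ]; positivity
  have hbx := bxv_eq (k := k) hca hcb hδ
  rw [← hB] at hbx
  have hsup' : ∀ u, |gam δ u| ≤ δ⁻¹ := by
    intro u
    rw [abs_of_pos (gam_pos hδ u)]
    exact gam_le hδ u
  have hsup : ∀ z, ‖FD (In S ρ) M (ca * δ) (cb * δ) (gam δ) U E z‖ₑ ≤
      ENNReal.ofReal (C * N * δ ^ (k + 1)) := by
    intro z
    refine (FD_sup hsup' E z).trans ?_
    calc ENNReal.ofReal δ⁻¹ * volume E
        ≤ ENNReal.ofReal δ⁻¹ * ENNReal.ofReal (cE * N * δ ^ (k + 2)) := by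
          gcongr
          exact hF.Ev
      _ = ENNReal.ofReal (cE * (N * δ ^ (k + 1))) := by
          rw [← ENNReal.ofReal_mul (by positivity)]
          congr 1
          rw [pow_succ δ (k + 1)]
          field_simp
      _ ≤ ENNReal.ofReal (C * (N * δ ^ (k + 1))) := by
          apply ENNReal.ofReal_le_ofReal
          apply mul_le_mul_of_nonneg_right hC1
          positivity
      _ = _ := by congr 1; ring
  have hvA : volume (In S ρ) ≤ ENNReal.ofReal (2 * ρ) := by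
    calc volume (In S ρ) ≤ volume (Icc (-ρ) ρ) :=
          measure_mono fun r hr => abs_le.1 hr.1
      _ = _ := by
          rw [Real.volume_Icc]
          congr 1
          ring
  have hl1 : ∫⁻ z, ‖FD (In S ρ) M (ca * δ) (cb * δ) (gam δ) U E z‖ₑ ≤
      ENNReal.ofReal (C * ρ * N * δ ^ (2 * k + 3)) := by
    refine (FD_l1' (In_meas _ _) M (ca * δ) (cb * δ) (gam_meas δ)
      (by rw [gam_lint_enorm hδ]; norm_num) hF.Um E).trans ?_
    calc 2 * (volume (In S ρ) * bxv k (ca * δ) (cb * δ)) * volume E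
        ≤ ENNReal.ofReal 2 * (ENNReal.ofReal (2 * ρ) * ENNReal.ofReal (B * δ ^ (k + 1))) *
          ENNReal.ofReal (cE * N * δ ^ (k + 2)) := by
          rw [hbx]
          gcongr
          · simp
          · exact hF.Ev
      _ = ENNReal.ofReal ((4 * B * cE) * (ρ * N * δ ^ (2 * k + 3))) := by
          rw [← ENNReal.ofReal_mul (by positivity), ← ENNReal.ofReal_mul (by positivity),
            ← ENNReal.ofReal_mul (by positivity)]
          congr 1
          have : δ ^ (2 * k + 3) = δ ^ (k + 1) * δ ^ (k + 2) := by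
            rw [← pow_add]; congr 1; ring
          rw [this]
          ring
      _ ≤ ENNReal.ofReal (C * (ρ * N * δ ^ (2 * k + 3))) := by
          apply ENNReal.ofReal_le_ofReal
          apply mul_le_mul_of_nonneg_right _ (by positivity)
          have : 0 < B * cE := by positivity
          linarith
      _ = _ := by congr 1; ring
  have hnum := numer0 k (q := q) (β := β) hC0 hN hδ hβ
  rw [← hρ] at hnum
  rw [← hnum]
  have hY1 : 0 < C * N * δ ^ (k + 1) := by positivity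
  have hY2 : 0 < C * ρ * N * δ ^ (2 * k + 3) := by positivity
  have hFm := FD_meas (In_meas S ρ) M (ca * δ) (cb * δ) (gam_meas δ) hF.Um E
  calc ∫⁻ z, ‖FD (In S ρ) M (ca * δ) (cb * δ) (gam δ) U E z‖ₑ ^ q
      ≤ ∫⁻ z, ENNReal.ofReal (C * N * δ ^ (k + 1)) ^ (q - 1) *
          ‖FD (In S ρ) M (ca * δ) (cb * δ) (gam δ) U E z‖ₑ := by
        apply lintegral_mono
        intro z
        beta_reduce
        have e1 : q = (q - 1) + 1 := by ring
        conv_lhs => rw [e1, ENNReal.rpow_add_of_nonneg _ _ (by linarith) zero_le_one,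
          ENNReal.rpow_one]
        gcongr
        exact hsup z
    _ = ENNReal.ofReal (C * N * δ ^ (k + 1)) ^ (q - 1) *
          ∫⁻ z, ‖FD (In S ρ) M (ca * δ) (cb * δ) (gam δ) U E z‖ₑ :=
        lintegral_const_mul _ hFm.enorm
    _ ≤ ENNReal.ofReal (C * N * δ ^ (k + 1)) ^ (q - 1) *
          ENNReal.ofReal (C * ρ * N * δ ^ (2 * k + 3)) := by gcongr
    _ = _ := by
        rw [ENNReal.ofReal_rpow_of_pos hY1, ← ENNReal.ofReal_mul (by positivity)]

theorem pow_rpow {x : ℝ} (hx : 0 ≤ x) (n : ℕ) (t : ℝ) : (x ^ n) ^ t = (x ^ t) ^ n := by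
  rw [← Real.rpow_natCast, ← Real.rpow_natCast, ← Real.rpow_mul hx, ← Real.rpow_mul hx, mul_comm]

theorem geo_le {x : ℝ} (h0 : 0 ≤ x) (h1 : x < 1) (n : ℕ) :
    ∑ i ∈ Finset.range n, x ^ i ≤ (1 - x)⁻¹ := by
  rw [← tsum_geometric_of_lt_one h0 h1]
  exact (summable_geometric_of_lt_one h0 h1).sum_le_tsum _ (fun i _ => by positivity)

/-- The estimate for the dual function. -/
theorem total (k : ℕ) {R S ca cb cE q : ℝ} (hR : 0 ≤ R) (hS : 0 ≤ S)
    (hca : 0 < ca) (hcb : 0 < cb) (hcab : cb ^ 2 ≤ ca) (hcE : 0 < cE)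
    (hq : ((k : ℝ) + 3) / ((k : ℝ) + 2) < q) (hq2 : q ≤ 2) :
    ∃ C : ℝ, 0 < C ∧ ∀ (M δ N : ℝ) (U : Yf k → ℝ) (E : Set (Yf k)), 0 ≤ M → 0 < δ → δ ≤ 1 →
      0 < N → Fam k R cE δ N U E →
      eLpNorm (FD {r | |r| ≤ S} M (ca * δ) (cb * δ) (gam δ) U E) (ENNReal.ofReal q) volume ≤
        ENNReal.ofReal (C * (δ ^ (k + 1) *
          (δ ^ (k + 2) * N ^ (q - 1 / ((k : ℝ) + 2))) ^ (1 / q))) := by
  have hk : (0 : ℝ) < (k : ℝ) + 2 := by positivity
  have hk1 : 1 < ((k : ℝ) + 3) / ((k : ℝ) + 2) := by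
    rw [lt_div_iff₀ hk]
    linarith
  have hq1 : 1 < q := hk1.trans hq
  have hq0 : 0 < q := by linarith
  obtain ⟨β, hβ⟩ : ∃ β, 2 * β = q - ((k : ℝ) + 3) / ((k : ℝ) + 2) :=
    ⟨(q - ((k : ℝ) + 3) / ((k : ℝ) + 2)) / 2, by ring⟩
  have hβ0 : 0 < β := by linarith
  have hβ1 : β ≤ q - 1 := by linarith
  have hexp : 1 + 2 * β = q - 1 / ((k : ℝ) + 2) := by
    rw [hβ]
    field_simp
    ring
  set C0 := CC k R S ca cb cE with hC0
  have hπ := Real.pi_pos
  have hC00 : 0 < C0 := by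
    rw [hC0, CC]
    positivity
  set x : ℝ := ((1 / 2 : ℝ) ^ β) ^ (1 / q) with hx
  set y : ℝ := ((1 / 2 : ℝ) ^ (((k : ℝ) + 2) * β)) ^ (1 / q) with hy
  have hx0 : 0 < x := by rw [hx]; positivity
  have hy0 : 0 < y := by rw [hy]; positivity
  have hx1 : x < 1 := by
    rw [hx]
    apply Real.rpow_lt_one (by positivity) _ (by positivity)
    exact Real.rpow_lt_one (by norm_num) (by norm_num) hβ0
  have hy1 : y < 1 := by
    rw [hy]
    apply Real.rpow_lt_one (by positivity) _ (by positivity)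
    exact Real.rpow_lt_one (by norm_num) (by norm_num) (by positivity)
  set C1 : ℝ := (C0 ^ (1 + β)) ^ (1 / q) with hC1
  have hC10 : 0 < C1 := by rw [hC1]; positivity
  have hx1' : 0 < 1 - x := by linarith
  have hy1' : 0 < 1 - y := by linarith
  refine ⟨C0 + C1 * ((1 - x)⁻¹ * (1 - y)⁻¹), by positivity, ?_⟩
  intro M δ N U E hM hδ hδ1 hN hF
  rw [← hexp]
  set Qr : ℝ := δ ^ (k + 1) * (δ ^ (k + 2) * N ^ (1 + 2 * β)) ^ (1 / q) with hQr
  have hQ0 : 0 < Qr := by rw [hQr]; positivity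
  have hQq : ((δ ^ (k + 1)) ^ q * (δ ^ (k + 2) * N ^ (1 + 2 * β))) ^ (1 / q) = Qr := by
    rw [Real.mul_rpow (by positivity) (by positivity), ← Real.rpow_mul (by positivity),
      mul_one_div_cancel hq0.ne', Real.rpow_one]
  set ρ : ℝ := N ^ (-(1 / ((k : ℝ) + 2))) with hρ
  have hρ0 : 0 < ρ := by rw [hρ]; positivity
  obtain ⟨I, hI1, hI2⟩ : ∃ I : ℕ, (2 : ℝ) ^ I ≤ 1 / δ ∧ 1 / δ < 2 ^ (I + 1) :=
    exists_nat_pow_near (by rw [le_div_iff₀ hδ]; linarith) (by norm_num)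
  have hI1' : δ * 2 ^ I ≤ 1 := by
    rw [le_div_iff₀ hδ] at hI1
    linarith
  have hI2' : 1 / 2 ≤ δ * 2 ^ I := by
    rw [div_lt_iff₀ hδ, pow_succ] at hI2
    linarith
  obtain ⟨L, hL⟩ : ∃ L : ℕ, S < ρ * 2 ^ L := by
    obtain ⟨L, hL⟩ := pow_unbounded_of_one_lt (S / ρ) (show (1 : ℝ) < 2 by norm_num)
    refine ⟨L, ?_⟩
    rw [div_lt_iff₀ hρ0] at hL
    linarith
  have hAS : {r : ℝ | |r| ≤ S} = In S (ρ * 2 ^ L) := by
    ext r
    simp only [In, mem_ofPred_eq]
    exact ⟨fun h => ⟨h.trans hL.le, h⟩, fun h => h.2⟩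
  have hsup' : ∀ u, |gam δ u| ≤ δ⁻¹ := by
    intro u
    rw [abs_of_pos (gam_pos hδ u)]
    exact gam_le hδ u
  -- the kernels
  obtain ⟨κ, hκ, hκs⟩ : ∃ κ : ℕ → ℝ → ℝ, (∀ i ≤ I, Ker (κ i) (δ * 2 ^ i)⁻¹) ∧
      ∀ (A : Set ℝ), MeasurableSet A → ∀ z, FD A M (ca * δ) (cb * δ) (gam δ) U E z =
        ∑ i ∈ Finset.range (I + 1), FD A M (ca * δ) (cb * δ) (κ i) U E z := by
    refine ⟨fun i => if i < I then kd (δ * 2 ^ i) else gam (δ * 2 ^ I), ?_, ?_⟩
    · intro i hi
      by_cases h : i < I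
      · simp only [h, if_true]
        exact kd_ker (by positivity)
      · have hiI : i = I := by omega
        subst hiI
        simp only [lt_irrefl, if_false]
        exact gam_ker hI2' hI1'
    · intro A hA z
      rw [gam_dec hδ hA M (ca * δ) (cb * δ) hF.Um hF.fin I z, Finset.sum_range_succ]
      congr 1
      · apply Finset.sum_congr rfl
        intro i hi
        simp only [Finset.mem_range.1 hi, if_true]
      · simp only [lt_irrefl, if_false]
  have hdec : FD {r | |r| ≤ S} M (ca * δ) (cb * δ) (gam δ) U E =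
      FD (In S ρ) M (ca * δ) (cb * δ) (gam δ) U E + ∑ l ∈ Finset.range L,
        ∑ i ∈ Finset.range (I + 1), FD (An S ρ l) M (ca * δ) (cb * δ) (κ i) U E := by
    funext z
    rw [hAS, An_dec hρ0 M (ca * δ) (cb * δ) (gam_meas δ) hsup' hF.Um hF.fin L z]
    simp only [Pi.add_apply, Finset.sum_apply]
    congr 1
    apply Finset.sum_congr rfl
    intro l _
    exact hκs _ (An_meas _ _ _) z
  have hnear : eLpNorm (FD (In S ρ) M (ca * δ) (cb * δ) (gam δ) U E) (ENNReal.ofReal q) volume ≤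
      ENNReal.ofReal (C0 * Qr) := by
    refine (eLp_le hq0 (by positivity) (near hR hS hca hcb hcE hq1.le hβ hδ hN hF)).trans
      (le_of_eq ?_)
    rw [← hC0, Real.mul_rpow (by positivity) (by positivity), hQq, ← Real.rpow_mul (by positivity),
      mul_one_div_cancel hq0.ne', Real.rpow_one]
  have hpiece : ∀ l i, i ≤ I → eLpNorm (FD (An S ρ l) M (ca * δ) (cb * δ) (κ i) U E)
      (ENNReal.ofReal q) volume ≤ ENNReal.ofReal (C1 * Qr * (x ^ i * y ^ l)) := by
    intro l i hi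
    refine (eLp_le hq0 (by positivity) (piece hR hS hM hca hcb hcab hcE hβ0 hβ1 hq2 hβ hδ hδ1 hN
      hF (l := l) (i := i) (An_meas S ρ l) (fun r hr => hr.2.2) (fun r hr => hr.1.le) ?_
      (hκ i hi))).trans (le_of_eq ?_)
    · intro r hr
      refine hr.2.1.trans (le_of_eq ?_)
      rw [pow_succ]
      ring
    · congr 1
      rw [← hC0]
      have e1 : C0 ^ (1 + β) * (δ ^ (k + 1)) ^ q * (δ ^ (k + 2) * N ^ (1 + 2 * β)) *
          ((1 / 2) ^ i) ^ β * ((1 / 2) ^ (((k : ℝ) + 2) * β)) ^ l =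
          C0 ^ (1 + β) * ((δ ^ (k + 1)) ^ q * (δ ^ (k + 2) * N ^ (1 + 2 * β))) *
          (((1 / 2) ^ β) ^ i * ((1 / 2) ^ (((k : ℝ) + 2) * β)) ^ l) := by
        rw [pow_rpow (by norm_num) i]
        ring
      have e3 : ∀ W V : ℝ, 0 ≤ W → 0 ≤ V →
          (C0 ^ (1 + β) * W * V) ^ (1 / q) = C1 * W ^ (1 / q) * V ^ (1 / q) := by
        intro W V hW hV
        rw [Real.mul_rpow (by positivity) hV, Real.mul_rpow (by positivity) hW]
      rw [e1, e3 _ _ (by positivity) (by positivity), hQq,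
        Real.mul_rpow (by positivity) (by positivity), hx, hy]
      rw [pow_rpow (by positivity) i, pow_rpow (by positivity) l]
  have hFDm : ∀ l, ∀ i ≤ I, AEStronglyMeasurable
      (FD (An S ρ l) M (ca * δ) (cb * δ) (κ i) U E) volume := fun l i hi =>
    (FD_meas (An_meas S ρ l) M (ca * δ) (cb * δ) (hκ i hi).meas hF.Um E).aestronglyMeasurable
  have hone : (1 : ℝ≥0∞) ≤ ENNReal.ofReal q := by
    rw [← ENNReal.ofReal_one]
    exact ENNReal.ofReal_le_ofReal hq1.le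
  have hinner : ∀ l, eLpNorm (∑ i ∈ Finset.range (I + 1),
      FD (An S ρ l) M (ca * δ) (cb * δ) (κ i) U E) (ENNReal.ofReal q) volume ≤
      ENNReal.ofReal (C1 * Qr * (1 - x)⁻¹ * y ^ l) := by
    intro l
    refine (eLpNorm_sum_le (fun i hi => hFDm l i (by
      have := Finset.mem_range.1 hi; omega)) hone).trans ?_
    calc ∑ i ∈ Finset.range (I + 1), eLpNorm (FD (An S ρ l) M (ca * δ) (cb * δ) (κ i) U E)
          (ENNReal.ofReal q) volume
        ≤ ∑ i ∈ Finset.range (I + 1), ENNReal.ofReal (C1 * Qr * (x ^ i * y ^ l)) := by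
          apply Finset.sum_le_sum
          intro i hi
          exact hpiece l i (by have := Finset.mem_range.1 hi; omega)
      _ = ENNReal.ofReal (C1 * Qr * y ^ l * ∑ i ∈ Finset.range (I + 1), x ^ i) := by
          rw [← ENNReal.ofReal_sum_of_nonneg (fun i _ => by positivity), Finset.mul_sum]
          congr 1
          apply Finset.sum_congr rfl
          intro i _
          ring
      _ ≤ _ := by
          apply ENNReal.ofReal_le_ofReal
          have h1 := geo_le hx0.le hx1 (I + 1)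
          have h2 : 0 ≤ C1 * Qr * y ^ l := by positivity
          calc C1 * Qr * y ^ l * ∑ i ∈ Finset.range (I + 1), x ^ i
              ≤ C1 * Qr * y ^ l * (1 - x)⁻¹ := by gcongr
            _ = _ := by ring
  have hsum : eLpNorm (∑ l ∈ Finset.range L, ∑ i ∈ Finset.range (I + 1),
      FD (An S ρ l) M (ca * δ) (cb * δ) (κ i) U E) (ENNReal.ofReal q) volume ≤
      ENNReal.ofReal (C1 * Qr * (1 - x)⁻¹ * (1 - y)⁻¹) := by
    refine (eLpNorm_sum_le (fun l _ => ?_) hone).trans ?_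
    · exact Finset.aestronglyMeasurable_sum _ (fun i hi => hFDm l i (by
        have := Finset.mem_range.1 hi; omega))
    calc ∑ l ∈ Finset.range L, eLpNorm (∑ i ∈ Finset.range (I + 1),
          FD (An S ρ l) M (ca * δ) (cb * δ) (κ i) U E) (ENNReal.ofReal q) volume
        ≤ ∑ l ∈ Finset.range L, ENNReal.ofReal (C1 * Qr * (1 - x)⁻¹ * y ^ l) :=
          Finset.sum_le_sum fun l _ => hinner l
      _ = ENNReal.ofReal (C1 * Qr * (1 - x)⁻¹ * ∑ l ∈ Finset.range L, y ^ l) := by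
          rw [← ENNReal.ofReal_sum_of_nonneg (fun i _ => by positivity), Finset.mul_sum]
      _ ≤ _ := by
          apply ENNReal.ofReal_le_ofReal
          have h1 := geo_le hy0.le hy1 L
          gcongr
  rw [hdec]
  refine (eLpNorm_add_le ?_ ?_ hone).trans ?_
  · exact (FD_meas (In_meas S ρ) M (ca * δ) (cb * δ) (gam_meas δ) hF.Um E).aestronglyMeasurable
  · refine Finset.aestronglyMeasurable_sum _ (fun l _ => ?_)
    exact Finset.aestronglyMeasurable_sum _ (fun i hi => hFDm l i (by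
        have := Finset.mem_range.1 hi; omega))
  calc _ ≤ ENNReal.ofReal (C0 * Qr) + ENNReal.ofReal (C1 * Qr * (1 - x)⁻¹ * (1 - y)⁻¹) :=
        add_le_add hnear hsum
    _ = _ := by
        rw [← ENNReal.ofReal_add (by positivity) (by positivity)]
        congr 1
        ring

end Pool.Agent.N249.TF
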