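import Pool.Agent.N249.LR.Fin
import Pool.Agent.N249.TF.Tot

set_option autoImplicit false

/-!
Families of tangent tubes: frames.
-/

open MeasureTheory Set ENNReal Real

namespace Pool.Agent.N249.TF

open Pool.Agent.N249.LR

variable {k : ℕ}

/-- The frame of a direction. -/
noncomputable def fr (e : Eu k) : Yf k :=
  (‖yy e‖⁻¹ • rest e, (Complex.arg (yy e), (2 * ‖yy e‖)⁻¹ * e 2))

/-- The transversal position. -/
noncomputable def up (e P : Eu k) : ℝ :=
  P 1 * Real.cos (Complex.arg (yy e)) - P 0 * Real.sin (Complex.arg (yy e))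

theorem fr_tan {R δ : ℝ} (hR : 0 ≤ R) {e c P : Eu k} (he : ‖e‖ = 1)
    (h : Adm R δ e c P) :
    Tan R δ (fr e).2.1 ‖yy e‖ (fr e).2.2 (up e P) (inner ℝ (c - P) e) (fr e).1 e c P := by
  have hy : yy e ≠ 0 := by
    intro hy0
    have h0 : e 0 = 0 := congrArg Complex.re hy0
    have h1 : e 1 = 0 := congrArg Complex.im hy0
    have h2 : e 2 = 0 := by rw [h.e2, h0, h1]; ring
    have h3 : ∀ i : Fin (k + 3), 2 < i → e i = 0 := by
      intro i hi
      have := h.es i hi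
      rw [h0, h1] at this
      simp only [ne_eq, OfNat.ofNat_ne_zero, not_false_eq_true, zero_pow, add_zero,
        Real.sqrt_zero, mul_zero] at this
      exact abs_nonpos_iff.1 this
    have : e = 0 := by
      ext i
      refine Fin.cases ?_ (fun i => ?_) i
      · exact h0
      · refine Fin.cases ?_ (fun i => ?_) i
        · exact h1
        · refine Fin.cases ?_ (fun i => ?_) i
          · exact h2
          · apply h3
            rw [Fin.lt_def]
            change 2 < (i : ℕ) + 1 + 1 + 1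
            omega
    rw [this, norm_zero] at he
    exact zero_ne_one he
  set lam : ℝ := ‖yy e‖ with hlam
  have hl0 : 0 < lam := norm_pos_iff.2 hy
  have hfr1 : (fr e).2.1 = Complex.arg (yy e) := rfl
  set φ : ℝ := Complex.arg (yy e) with hφ
  have hcos : lam * Real.cos φ = e 0 := Complex.norm_mul_cos_arg (yy e)
  have hsin : lam * Real.sin φ = e 1 := Complex.norm_mul_sin_arg (yy e)
  have hl2 : lam ^ 2 = e 0 ^ 2 + e 1 ^ 2 := by
    have := Real.sin_sq_add_cos_sq φ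
    rw [← hcos, ← hsin]
    have e3 : (lam * Real.cos φ) ^ 2 + (lam * Real.sin φ) ^ 2 =
        lam ^ 2 * (Real.sin φ ^ 2 + Real.cos φ ^ 2) := by ring
    rw [e3, this, mul_one]
  have hsq : √(e 0 ^ 2 + e 1 ^ 2) = lam := by
    rw [← hl2, Real.sqrt_sq hl0.le]
  have hl1 : lam ≤ 1 := by
    have a1 : lam ^ 2 ≤ ‖e‖ ^ 2 := by
      rw [EuclideanSpace.norm_sq_eq, hl2, Fin.sum_univ_succ, Fin.sum_univ_succ]
      simp only [Real.norm_eq_abs, sq_abs]
      have a2 : 0 ≤ ∑ i : Fin (k + 1), (e.ofLp i.succ.succ) ^ 2 :=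
        Finset.sum_nonneg fun i _ => sq_nonneg _
      have a4 : e 1 = e (Fin.succ 0) := rfl
      rw [a4]
      linarith
    rw [he, one_pow] at a1
    exact abs_le_of_sq_le_sq' (by linarith) zero_le_one |>.2
  have hv : (fr e).1 = lam⁻¹ • rest e := rfl
  have hm : (fr e).2.2 = (2 * lam)⁻¹ * e 2 := rfl
  rw [hfr1]
  refine ⟨hR, hl0, hl1, hcos.symm, hsin.symm, h.e2, ?_, ?_, h.P2, ?_, h.PR, h.cP, ?_, rfl, rfl⟩
  · intro i
    rw [hv, Pi.smul_apply, smul_eq_mul, mul_inv_cancel_left₀ hl0.ne']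
    rfl
  · intro i
    rw [hv, Pi.smul_apply, smul_eq_mul, abs_mul, abs_inv, abs_of_pos hl0, inv_mul_le_iff₀ hl0]
    have h1 := h.es i.succ.succ.succ (by
      rw [Fin.lt_def]
      change 2 < (i : ℕ) + 1 + 1 + 1
      omega)
    rw [hsq] at h1
    rw [mul_comm]
    exact h1
  · intro i
    apply h.Ps
    rw [Fin.lt_def]
    change 2 < (i : ℕ) + 1 + 1 + 1
    omega
  · rw [hm, h.e2, ← hcos, ← hsin]
    field_simp

/-- The constants. -/
noncomputable def MR (R : ℝ) : ℝ := 3 * R + 9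
noncomputable def SR (R : ℝ) : ℝ := 7 * R + 24
noncomputable def caR (R : ℝ) : ℝ := 930 * (1 + R) ^ 4
noncomputable def cbR (R : ℝ) : ℝ := 30 * (1 + R) ^ 2
noncomputable def uR (R : ℝ) : ℝ := 6 * R + 22

/-- The box of a frame. -/
def BT (s : ℝ) (ω₀ : Yf k) : Set (Yf k) :=
  {ω | (∀ i, |ω.1 i - ω₀.1 i| ≤ s) ∧ (|ω.2.1 - ω₀.2.1| ≤ s ∧ ω.2.1 ∈ Ioc (-π) π) ∧
    |ω.2.2 - ω₀.2.2| ≤ s}

theorem cx_diff (y : ℂ) (φ φ' : ℝ) : |cx y φ' - cx y φ| ≤ 2 * ‖y‖ * |φ' - φ| := by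
  have h1 := Real.abs_cos_sub_cos_le φ' φ
  have h2 := Real.abs_sin_sub_sin_le φ' φ
  have h3 := Complex.abs_re_le_norm y
  have h4 := Complex.abs_im_le_norm y
  have e : cx y φ' - cx y φ = y.re * (Real.cos φ' - Real.cos φ) +
      y.im * (Real.sin φ' - Real.sin φ) := by
    unfold cx; ring
  rw [e]
  refine (abs_add_le _ _).trans ?_
  rw [abs_mul, abs_mul]
  have h5 : |y.re| * |Real.cos φ' - Real.cos φ| ≤ ‖y‖ * |φ' - φ| :=
    mul_le_mul h3 h1 (abs_nonneg _) (norm_nonneg _)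
  have h6 : |y.im| * |Real.sin φ' - Real.sin φ| ≤ ‖y‖ * |φ' - φ| :=
    mul_le_mul h4 h2 (abs_nonneg _) (norm_nonneg _)
  linarith

theorem cy_diff (y : ℂ) (φ φ' : ℝ) : |cy y φ' - cy y φ| ≤ 2 * ‖y‖ * |φ' - φ| := by
  have h1 := Real.abs_cos_sub_cos_le φ' φ
  have h2 := Real.abs_sin_sub_sin_le φ' φ
  have h3 := Complex.abs_re_le_norm y
  have h4 := Complex.abs_im_le_norm y
  have e : cy y φ' - cy y φ = y.im * (Real.cos φ' - Real.cos φ) -
      y.re * (Real.sin φ' - Real.sin φ) := by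
    unfold cy; ring
  rw [e]
  refine (abs_sub _ _).trans ?_
  rw [abs_mul, abs_mul]
  have h5 : |y.im| * |Real.cos φ' - Real.cos φ| ≤ ‖y‖ * |φ' - φ| :=
    mul_le_mul h4 h1 (abs_nonneg _) (norm_nonneg _)
  have h6 : |y.re| * |Real.sin φ' - Real.sin φ| ≤ ‖y‖ * |φ' - φ| :=
    mul_le_mul h3 h2 (abs_nonneg _) (norm_nonneg _)
  linarith

/-- The coordinates. -/
noncomputable def ch (z : Zf k) : Eu k := emb (z.1, (z.2.1 + ‖z.1‖ ^ 2, z.2.2))

/-- The points of a tangent tube in the frames near its frame. -/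
theorem tube_frame {R δ φ lam m u0 t0 : ℝ} {v : Fin k → ℝ} {e c P : Eu k}
    (h : Tan R δ φ lam m u0 t0 v e c P) (hδ : 0 < δ) (hδ1 : δ ≤ 1) (ht0 : |t0| ≤ R) {z : Zf k}
    (hz : ch z ∈ tub δ e c) {ω : Yf k} (hω : ω ∈ BT δ (v, (φ, m))) :
    |uu ω z - u0| ≤ uR R * δ ∧ |rr ω z| ≤ SR R ∧ ‖z.1‖ ≤ MR R ∧
      z.2 ∈ Bx (caR R * δ) (cbR R * δ) ω.1 (rr ω z) := by
  obtain ⟨y, p⟩ := z
  obtain ⟨v', φ', m'⟩ := ω
  obtain ⟨hv', ⟨hφ', -⟩, hm'⟩ := hω
  simp only at hv' hφ' hm'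
  obtain ⟨t, ht, hco⟩ := tube_coord hz.1 hz.2 h.cP
  rw [← h.ht] at ht
  have hcs := Real.sin_sq_add_cos_sq φ
  have b0 := hco 0
  have b1 := hco 1
  have b2 := hco 2
  unfold ch at b0 b1 b2 hco
  rw [emb_0] at b0
  rw [emb_1] at b1
  rw [emb_2] at b2
  simp only at b0 b1 b2
  have hR := h.R0
  have hn : ‖y‖ ^ 2 = y.re ^ 2 + y.im ^ 2 := by
    rw [← Complex.normSq_eq_norm_sq, Complex.normSq_apply]
    ring
  rw [hn] at b2
  have h1 := contain_real (m := m) (ρ := cx y φ - m) (u' := cy y φ) (u0 := u0) hδ hδ1 hcs h.R0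
    h.l0 h.l1 h.e0 h.e1 h.e2 h.P2 h.PR b0 b1 b2 ht h.hm rfl rfl h.hu
  obtain ⟨c1, c2, c3, c4⟩ := h1
  set ρ : ℝ := cx y φ - m with hρ
  -- the sizes
  have hmu : m ^ 2 + u0 ^ 2 ≤ R ^ 2 := by
    have e1 : m ^ 2 + u0 ^ 2 = (Real.sin φ ^ 2 + Real.cos φ ^ 2) * (P 0 ^ 2 + P 1 ^ 2) := by
      rw [h.hm, h.hu]; ring
    rw [e1, hcs, one_mul]
    exact h.PR
  have hmR : |m| ≤ R := abs_le_of_sq_le_sq (by nlinarith [sq_nonneg u0]) hR
  have huR : |u0| ≤ R := abs_le_of_sq_le_sq (by nlinarith [sq_nonneg m]) hR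
  have htl : |t0 * lam| ≤ R := by
    rw [abs_mul, abs_of_pos h.l0]
    have := h.l1
    have h2 := h.l0
    nlinarith [abs_nonneg t0]
  have hρR : |ρ| ≤ R + 9 / 2 := by
    have := abs_le.1 c4
    have := abs_le.1 htl
    rw [abs_le]
    constructor <;> linarith
  have hcx : |cx y φ| ≤ 2 * R + 9 / 2 := by
    have e1 : cx y φ = ρ + m := by rw [hρ]; ring
    rw [e1]
    exact (abs_add_le _ _).trans (by linarith)
  have hcy : |cy y φ| ≤ R + 4 := by
    have h1 := abs_le.1 c1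
    have h2 := abs_le.1 huR
    rw [abs_le]
    constructor <;> linarith
  have hyM : ‖y‖ ≤ MR R := by
    have e1 := cx_cy y φ
    rw [← hn] at e1
    unfold MR
    have h1 : ‖y‖ ^ 2 ≤ (|cx y φ| + |cy y φ|) ^ 2 := by
      rw [← e1]
      have h2 := abs_nonneg (cx y φ)
      have h3 := abs_nonneg (cy y φ)
      have h4 : cx y φ ^ 2 = |cx y φ| ^ 2 := (sq_abs _).symm
      have h5 : cy y φ ^ 2 = |cy y φ| ^ 2 := (sq_abs _).symm
      rw [h4, h5]
      nlinarith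
    have h2 := (abs_le_of_sq_le_sq' h1 (by positivity)).2
    linarith
  have hM0 : 0 ≤ MR R := by unfold MR; positivity
  have hdφ : 2 * ‖y‖ * |φ' - φ| ≤ 2 * MR R * δ :=
    mul_le_mul (by linarith) hφ' (abs_nonneg _) (by positivity)
  have hdcx := (cx_diff y φ φ').trans hdφ
  have hdcy := (cy_diff y φ φ').trans hdφ
  set ρ' : ℝ := cx y φ' - m' with hρ'
  have hrr : rr (v', (φ', m')) (y, p) = ρ' := rfl
  have huu : uu (v', (φ', m')) (y, p) = cy y φ' := rfl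
  have hd : |ρ' - ρ| ≤ (2 * MR R + 1) * δ := by
    have e1 : ρ' - ρ = (cx y φ' - cx y φ) - (m' - m) := by rw [hρ, hρ']; ring
    rw [e1]
    refine (abs_sub _ _).trans ?_
    linarith
  have hd1 : |ρ' - ρ| ≤ 2 * MR R + 1 := by
    refine hd.trans ?_
    have : 0 ≤ 2 * MR R + 1 := by positivity
    exact mul_le_of_le_one_right this hδ1
  have hρ'S : |ρ'| ≤ SR R := by
    have e1 : ρ' = (ρ' - ρ) + ρ := by ring
    rw [e1]
    refine (abs_add_le _ _).trans ?_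
    unfold SR
    unfold MR at hd1
    linarith
  have hρS : |ρ| ≤ SR R := by
    refine hρR.trans ?_
    unfold SR
    linarith
  have hS0 : 0 ≤ SR R := by unfold SR; positivity
  rw [hrr, huu]
  refine ⟨?_, hρ'S, hyM, ?_, ?_⟩
  · have e1 : cy y φ' - u0 = (cy y φ' - cy y φ) + (cy y φ - u0) := by ring
    rw [e1]
    refine (abs_add_le _ _).trans ?_
    have : uR R * δ = 2 * MR R * δ + 4 * δ := by unfold uR MR; ring
    rw [this]
    linarith
  · have e1 : p.1 + (y.re ^ 2 + y.im ^ 2) - (y.re ^ 2 + y.im ^ 2) + ρ ^ 2 = p.1 + ρ ^ 2 := by ring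
    rw [e1] at c2
    have e2 : p.1 + ρ' ^ 2 = (p.1 + ρ ^ 2) + (ρ' - ρ) * (ρ' + ρ) := by ring
    simp only
    rw [e2]
    refine (abs_add_le _ _).trans ?_
    have h2 : |(ρ' - ρ) * (ρ' + ρ)| ≤ (2 * MR R + 1) * δ * (2 * SR R) := by
      rw [abs_mul]
      apply mul_le_mul hd _ (abs_nonneg _) (by positivity)
      refine (abs_add_le _ _).trans ?_
      linarith
    have h3 : (16 * R + 18) * δ + (2 * MR R + 1) * δ * (2 * SR R) ≤ caR R * δ := by
      have e3 : (16 * R + 18) * δ + (2 * MR R + 1) * δ * (2 * SR R) =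
          (84 * R ^ 2 + 570 * R + 930) * δ := by
        unfold MR SR; ring
      rw [e3]
      apply mul_le_mul_of_nonneg_right _ hδ.le
      unfold caR
      have : 0 ≤ R ^ 2 := sq_nonneg _
      have : 0 ≤ R ^ 3 := by positivity
      have : 0 ≤ R ^ 4 := by positivity
      nlinarith
    linarith
  · intro i
    have b3 := hco i.succ.succ.succ
    rw [emb_s, h.Ps, h.es] at b3
    have h2 := contain_rest c3 (h.vR i) b3 hδ hR
    simp only at h2 ⊢
    have e1 : p.2 i - ρ' * v' i = (p.2 i - ρ * v i) - (ρ' - ρ) * v i - ρ' * (v' i - v i) := by ring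
    rw [e1]
    refine (abs_sub _ _).trans ?_
    have h3 : |(p.2 i - ρ * v i) - (ρ' - ρ) * v i| ≤ (4 * R + 2) * δ + (2 * MR R + 1) * δ * R := by
      refine (abs_sub _ _).trans ?_
      apply add_le_add h2
      rw [abs_mul]
      exact mul_le_mul hd (h.vR i) (abs_nonneg _) (by positivity)
    have h4 : |ρ' * (v' i - v i)| ≤ SR R * δ := by
      rw [abs_mul]
      exact mul_le_mul hρ'S (hv' i) (abs_nonneg _) hS0
    have h5 : (4 * R + 2) * δ + (2 * MR R + 1) * δ * R + SR R * δ ≤ cbR R * δ := by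
      have e3 : (4 * R + 2) * δ + (2 * MR R + 1) * δ * R + SR R * δ =
          (6 * R ^ 2 + 30 * R + 26) * δ := by
        unfold MR SR; ring
      rw [e3]
      apply mul_le_mul_of_nonneg_right _ hδ.le
      unfold cbR
      have : 0 ≤ R ^ 2 := sq_nonneg _
      nlinarith
    linarith

end Pool.Agent.N249.TF
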