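import Pool.Agent.N249.LR.Avg

set_option autoImplicit false

/-!
Families of tangent tubes: kernels localized in frequency.
-/

open MeasureTheory Set ENNReal Real Complex

namespace Pool.Agent.N249.TF

open Pool.Agent.N249.LR

/-- Cauchy-Schwarz on the Fourier side, for a general multiplier. -/
theorem conv_sup {D : ℝ → ℝ} (hD0 : ∀ τ, 0 ≤ D τ) (hDm : Measurable D) {g : ℝ → ℂ}
    (hgm : Measurable g) (u : ℝ) {X : ℂ}
    (hX : X = ∫ τ, ((D τ : ℝ) : ℂ) * (ec (τ * u) * ∫ u', ec (-(u' * τ)) * g u')) :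
    ‖X‖ₑ ^ 2 ≤ (∫⁻ τ, (ENNReal.ofReal (D τ)) ^ 2 / (1 + ENNReal.ofReal |τ|)) *
      ∫⁻ τ, (1 + ENNReal.ofReal |τ|) * ‖∫ u', ec (-(u' * τ)) * g u'‖ₑ ^ 2 := by
  have hwm : Measurable (fun τ : ℝ => (1 + ENNReal.ofReal |τ|)) := by fun_prop
  have hTm : Measurable (fun τ : ℝ => ∫ u', ec (-(u' * τ)) * g u') := by
    have h1 : StronglyMeasurable (fun p : ℝ × ℝ => ec (-(p.2 * p.1)) * g p.2) := by
      apply Measurable.stronglyMeasurable
      apply Measurable.mul
      · apply ec_cont.measurable.comp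
        fun_prop
      · exact hgm.comp measurable_snd
    exact (h1.integral_prod_right' (ν := (volume : Measure ℝ))).measurable
  set T : ℝ → ℂ := fun τ => ∫ u', ec (-(u' * τ)) * g u' with hT
  set a : ℝ → ℝ≥0∞ := fun τ => (1 + ENNReal.ofReal |τ|) ^ (1 / 2 : ℝ) with ha
  have ha0 : ∀ τ, a τ ≠ 0 := by
    intro τ
    simp only [ha]
    rw [Ne, ENNReal.rpow_eq_zero_iff]
    rintro (⟨h1, _⟩ | ⟨h1, h2⟩)
    · simp at h1
    · norm_num at h2
  have hat : ∀ τ, a τ ≠ ∞ := by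
    intro τ
    simp only [ha]
    exact ENNReal.rpow_ne_top_of_nonneg (by norm_num) (by simp)
  have ha2 : ∀ τ, a τ ^ 2 = 1 + ENNReal.ofReal |τ| := by
    intro τ
    simp only [ha]
    rw [← ENNReal.rpow_natCast, ← ENNReal.rpow_mul]
    norm_num
  have ham : Measurable a := hwm.pow_const _
  have h1 : ‖X‖ₑ ≤
      ∫⁻ τ, ((fun τ => ENNReal.ofReal (D τ) / a τ) * (fun τ => a τ * ‖T τ‖ₑ)) τ := by
    rw [hX]
    refine (enorm_integral_le_lintegral_enorm _).trans (le_of_eq ?_)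
    apply lintegral_congr
    intro τ
    rw [enorm_mul, enorm_mul]
    have e1 : ‖ec (τ * u)‖ₑ = 1 := by
      rw [← ofReal_norm, ec_norm, ENNReal.ofReal_one]
    have e2 : ‖((D τ : ℝ) : ℂ)‖ₑ = ENNReal.ofReal (D τ) := by
      rw [← ofReal_norm, Complex.norm_real, Real.norm_of_nonneg (hD0 τ)]
    rw [e1, e2, one_mul]
    simp only [Pi.mul_apply]
    rw [← mul_assoc, ENNReal.div_mul_cancel (ha0 τ) (hat τ)]
  have h2 := ENNReal.lintegral_mul_le_Lp_mul_Lq (volume : Measure ℝ)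
    (Real.HolderConjugate.two_two) (f := fun τ => ENNReal.ofReal (D τ) / a τ)
    (g := fun τ => a τ * ‖T τ‖ₑ)
    (hDm.ennreal_ofReal.div ham).aemeasurable (ham.mul hTm.enorm).aemeasurable
  have e4 : ∀ x : ℝ≥0∞, (x ^ (1 / (2 : ℝ))) ^ 2 = x := by
    intro x
    rw [← ENNReal.rpow_natCast, ← ENNReal.rpow_mul]
    norm_num
  have h3 := pow_le_pow_left₀ (zero_le) (h1.trans h2) 2
  refine h3.trans (le_of_eq ?_)
  rw [mul_pow, e4, e4]
  congr 1
  · apply lintegral_congr
    intro τ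
    have : (ENNReal.ofReal (D τ) / a τ) ^ (2 : ℝ) = (ENNReal.ofReal (D τ) / a τ) ^ 2 := by
      exact_mod_cast ENNReal.rpow_natCast _ 2
    rw [this, div_eq_mul_inv, mul_pow, ← ENNReal.inv_pow, ha2, ← div_eq_mul_inv]
  · apply lintegral_congr
    intro τ
    have : (a τ * ‖T τ‖ₑ) ^ (2 : ℝ) = (a τ * ‖T τ‖ₑ) ^ 2 := by
      exact_mod_cast ENNReal.rpow_natCast _ 2
    rw [this, mul_pow, ha2]

/-- The properties of the kernels which are used. -/
structure Ker (κ : ℝ → ℝ) (c : ℝ) : Prop where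
  meas : Measurable κ
  int : Integrable κ
  l1 : ∫⁻ u, ‖κ u‖ₑ ≤ 2
  sup : ∀ u, |κ u| ≤ c
  l2 : ∀ g : ℝ → ℂ, Integrable g → Measurable g → ∀ u : ℝ,
    ‖∫ u', ((κ (u - u') : ℝ) : ℂ) * g u'‖ₑ ^ 2 ≤
      5 * ∫⁻ τ, (1 + ENNReal.ofReal |τ|) * ‖∫ u', ec (-(u' * τ)) * g u'‖ₑ ^ 2

/-- The difference of two Gaussians. -/
noncomputable def kd (d u : ℝ) : ℝ := gam d u - gam (2 * d) u

theorem EE_pos (d τ : ℝ) : 0 < EE d τ := by
  unfold EE
  positivity

theorem EE_le_one (d τ : ℝ) : EE d τ ≤ 1 := by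
  unfold EE
  rw [Real.exp_le_one_iff]
  have : 0 ≤ π * d ^ 2 * τ ^ 2 := by positivity
  linarith

theorem EE_diff {d : ℝ} (τ : ℝ) : 0 ≤ EE d τ - EE (2 * d) τ := by
  unfold EE
  rw [sub_nonneg]
  apply Real.exp_le_exp.2
  have : 0 ≤ π * d ^ 2 * τ ^ 2 := by positivity
  nlinarith

theorem EE_diff_le {d : ℝ} (τ : ℝ) :
    EE d τ - EE (2 * d) τ ≤ 3 * π * d ^ 2 * τ ^ 2 * EE d τ := by
  have h : EE (2 * d) τ = EE d τ * Real.exp (-(3 * π * d ^ 2 * τ ^ 2)) := by
    unfold EE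
    rw [← Real.exp_add]
    congr 1
    ring
  rw [h]
  have h1 := Real.add_one_le_exp (-(3 * π * d ^ 2 * τ ^ 2))
  have h2 := EE_pos d τ
  nlinarith

/-- The logarithmic integral of a difference. -/
theorem lp_const {d : ℝ} (hd : 0 < d) :
    ∫⁻ τ, (ENNReal.ofReal (EE d τ - EE (2 * d) τ)) ^ 2 / (1 + ENNReal.ofReal |τ|) ≤ 3 := by
  have hpt : ∀ τ : ℝ, (ENNReal.ofReal (EE d τ - EE (2 * d) τ)) ^ 2 / (1 + ENNReal.ofReal |τ|) ≤
      ENNReal.ofReal (3 * π * d ^ 2 * (|τ| * Real.exp (-(π * d ^ 2) * τ ^ 2))) := by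
    intro τ
    have hden : 1 + ENNReal.ofReal |τ| = ENNReal.ofReal (1 + |τ|) := by
      rw [ENNReal.ofReal_add (by norm_num) (abs_nonneg _), ENNReal.ofReal_one]
    rw [hden, ← ENNReal.ofReal_pow (EE_diff τ), ← ENNReal.ofReal_div_of_pos (by positivity)]
    apply ENNReal.ofReal_le_ofReal
    rw [div_le_iff₀ (by positivity)]
    have h1 := EE_diff_le (d := d) τ
    have h0 := EE_diff (d := d) τ
    have h2 : EE d τ - EE (2 * d) τ ≤ 1 := by
      have := EE_le_one d τ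
      have := EE_pos (2 * d) τ
      linarith
    have h3 : (EE d τ - EE (2 * d) τ) ^ 2 ≤ 3 * π * d ^ 2 * τ ^ 2 * EE d τ := by nlinarith
    refine h3.trans ?_
    have e : EE d τ = Real.exp (-(π * d ^ 2) * τ ^ 2) := rfl
    rw [← e]
    have h4 : τ ^ 2 = |τ| * |τ| := by rw [← sq, sq_abs]
    have h5 : 0 ≤ 3 * π * d ^ 2 * (|τ| * EE d τ) := by
      have := (EE_pos d τ).le
      positivity
    rw [h4]
    nlinarith
  have hb : 0 < π * d ^ 2 := by positivity
  have hhalf : ∫⁻ τ in Ioi (0 : ℝ), ENNReal.ofReal (|τ| * Real.exp (-(π * d ^ 2) * τ ^ 2)) =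
      ENNReal.ofReal ((2 * (π * d ^ 2))⁻¹) := by
    have hi : IntegrableOn (fun τ : ℝ => τ * Real.exp (-(π * d ^ 2) * τ ^ 2)) (Ioi 0) :=
      (integrable_mul_exp_neg_mul_sq hb).integrableOn
    have e1 : ∫⁻ τ in Ioi (0 : ℝ), ENNReal.ofReal (|τ| * Real.exp (-(π * d ^ 2) * τ ^ 2)) =
        ∫⁻ τ in Ioi (0 : ℝ), ENNReal.ofReal (τ * Real.exp (-(π * d ^ 2) * τ ^ 2)) := by
      apply setLIntegral_congr_fun measurableSet_Ioi
      intro τ hτ
      simp only
      rw [abs_of_pos hτ]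
    rw [e1, ← ofReal_integral_eq_lintegral_ofReal hi]
    · congr 1
      have h1 := integral_mul_cexp_neg_mul_sq (b := ((π * d ^ 2 : ℝ) : ℂ)) (by
        rw [Complex.ofReal_re]; exact hb)
      have h2 : ∫ r : ℝ in Ioi 0, (r : ℂ) * cexp (-((π * d ^ 2 : ℝ) : ℂ) * (r : ℂ) ^ 2) =
          ((∫ r : ℝ in Ioi 0, r * Real.exp (-(π * d ^ 2) * r ^ 2) : ℝ) : ℂ) := by
        refine Eq.trans ?_ (integral_ofReal (𝕜 := ℂ) (μ := volume.restrict (Ioi (0 : ℝ)))
          (f := fun r : ℝ => r * Real.exp (-(π * d ^ 2) * r ^ 2)))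
        apply integral_congr_ae
        filter_upwards with r
        change _ = ((r * Real.exp (-(π * d ^ 2) * r ^ 2) : ℝ) : ℂ)
        push_cast
        rfl
      rw [h2] at h1
      apply Complex.ofReal_injective
      rw [h1]
      push_cast
      rfl
    · filter_upwards [ae_restrict_mem measurableSet_Ioi] with τ hτ
      have : (0 : ℝ) < τ := hτ
      simp only [Pi.zero_apply]
      positivity
  have hneg : ∫⁻ τ in Iic (0 : ℝ), ENNReal.ofReal (|τ| * Real.exp (-(π * d ^ 2) * τ ^ 2)) =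
      ∫⁻ τ in Ici (0 : ℝ), ENNReal.ofReal (|τ| * Real.exp (-(π * d ^ 2) * τ ^ 2)) := by
    rw [← lintegral_indicator measurableSet_Ici, ← lintegral_indicator measurableSet_Iic,
      ← lintegral_neg_eq_self]
    apply lintegral_congr
    intro x
    by_cases hx : x ∈ Ici (0 : ℝ)
    · have hx' : -x ∈ Iic (0 : ℝ) := by
        have : (0 : ℝ) ≤ x := hx
        simpa using this
      rw [indicator_of_mem hx, indicator_of_mem hx', abs_neg, neg_sq]
    · have hx' : -x ∉ Iic (0 : ℝ) := by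
        intro hc
        apply hx
        simpa using hc
      rw [indicator_of_notMem hx, indicator_of_notMem hx']
  calc ∫⁻ τ, (ENNReal.ofReal (EE d τ - EE (2 * d) τ)) ^ 2 / (1 + ENNReal.ofReal |τ|)
      ≤ ∫⁻ τ, ENNReal.ofReal (3 * π * d ^ 2 * (|τ| * Real.exp (-(π * d ^ 2) * τ ^ 2))) :=
        lintegral_mono hpt
    _ = ENNReal.ofReal (3 * π * d ^ 2) *
        ∫⁻ τ, ENNReal.ofReal (|τ| * Real.exp (-(π * d ^ 2) * τ ^ 2)) := by
        rw [← lintegral_const_mul' _ _ ENNReal.ofReal_ne_top]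
        apply lintegral_congr
        intro τ
        rw [ENNReal.ofReal_mul (by positivity)]
    _ ≤ ENNReal.ofReal (3 * π * d ^ 2) *
        (∫⁻ τ in Iic (0 : ℝ) ∪ Ici 0, ENNReal.ofReal (|τ| * Real.exp (-(π * d ^ 2) * τ ^ 2))) := by
        rw [Iic_union_Ici, setLIntegral_univ]
    _ ≤ ENNReal.ofReal (3 * π * d ^ 2) * (ENNReal.ofReal ((2 * (π * d ^ 2))⁻¹) +
        ENNReal.ofReal ((2 * (π * d ^ 2))⁻¹)) := by
        gcongr
        refine (lintegral_union_le _ _ _).trans ?_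
        rw [hneg, ← setLIntegral_congr (Ioi_ae_eq_Ici (a := (0 : ℝ))), hhalf]
    _ ≤ 3 := by
        rw [← ENNReal.ofReal_add (by positivity) (by positivity), ← ENNReal.ofReal_mul (by positivity)]
        have : 3 * π * d ^ 2 * ((2 * (π * d ^ 2))⁻¹ + (2 * (π * d ^ 2))⁻¹) = 3 := by
          field_simp
          ring
        rw [this]
        simp

theorem gam_lint_enorm {d : ℝ} (hd : 0 < d) : ∫⁻ u, ‖gam d u‖ₑ = 1 := by
  rw [← gam_lint hd]
  apply lintegral_congr
  intro u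
  rw [← ofReal_norm, Real.norm_of_nonneg (gam_pos hd u).le]

/-- The difference of two Gaussians as a kernel. -/
theorem kd_ker {d : ℝ} (hd : 0 < d) : Ker (kd d) d⁻¹ where
  meas := (gam_meas d).sub (gam_meas (2 * d))
  int := (gam_integrable hd).sub (gam_integrable (by positivity))
  l1 := by
    calc ∫⁻ u, ‖kd d u‖ₑ ≤ ∫⁻ u, (‖gam d u‖ₑ + ‖gam (2 * d) u‖ₑ) := by
          apply lintegral_mono
          intro u
          exact enorm_sub_le
      _ = 2 := by
          rw [lintegral_add_left (gam_meas d).enorm, gam_lint_enorm hd,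
            gam_lint_enorm (by positivity)]
          norm_num
  sup := by
    intro u
    have h1 := gam_le hd u
    have h2 := gam_pos hd u
    have h3 := gam_le (δ := 2 * d) (by positivity) u
    have h4 := gam_pos (δ := 2 * d) (by positivity) u
    have h5 : (2 * d)⁻¹ ≤ d⁻¹ := by
      apply inv_anti₀ hd
      linarith
    unfold kd
    rw [abs_le]
    constructor <;> linarith
  l2 := by
    intro g hg hgm u
    have hi : ∀ {d : ℝ}, 0 < d → Integrable (fun u' => ((gam d (u - u') : ℝ) : ℂ) * g u') := by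
      intro d hd
      refine hg.bdd_mul (c := d⁻¹) ?_ ?_
      · exact (Complex.measurable_ofReal.comp
          ((gam_meas d).comp (by fun_prop))).aestronglyMeasurable
      · filter_upwards with u'
        rw [Complex.norm_real, Real.norm_of_nonneg (gam_pos hd _).le]
        exact gam_le hd _
    have hI : ∀ {d : ℝ}, 0 < d → Integrable (fun τ => ((EE d τ : ℝ) : ℂ) *
        (ec (τ * u) * ∫ u', ec (-(u' * τ)) * g u')) := by
      intro d hd
      have hTm : Measurable (fun τ : ℝ => ∫ u', ec (-(u' * τ)) * g u') := by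
        have h1 : StronglyMeasurable (fun p : ℝ × ℝ => ec (-(p.2 * p.1)) * g p.2) := by
          apply Measurable.stronglyMeasurable
          apply Measurable.mul
          · apply ec_cont.measurable.comp
            fun_prop
          · exact hgm.comp measurable_snd
        exact (h1.integral_prod_right' (ν := (volume : Measure ℝ))).measurable
      refine (EE_integrable hd).ofReal.mul_bdd (c := ∫ u', ‖g u'‖) ?_ ?_
      · apply Measurable.aestronglyMeasurable
        apply Measurable.mul _ hTm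
        apply ec_cont.measurable.comp
        fun_prop
      · filter_upwards with τ
        rw [norm_mul, ec_norm, one_mul]
        refine (norm_integral_le_integral_norm _).trans (le_of_eq ?_)
        apply integral_congr_ae
        filter_upwards with u'
        rw [norm_mul, ec_norm, one_mul]
    have hX : ∫ u', ((kd d (u - u') : ℝ) : ℂ) * g u' =
        ∫ τ, ((EE d τ - EE (2 * d) τ : ℝ) : ℂ) * (ec (τ * u) * ∫ u', ec (-(u' * τ)) * g u') := by
      have h2 : (0 : ℝ) < 2 * d := by positivity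
      have e1 : ∫ u', ((kd d (u - u') : ℝ) : ℂ) * g u' =
          (∫ u', ((gam d (u - u') : ℝ) : ℂ) * g u') -
            ∫ u', ((gam (2 * d) (u - u') : ℝ) : ℂ) * g u' := by
        rw [← integral_sub (hi hd) (hi h2)]
        apply integral_congr_ae
        filter_upwards with u'
        unfold kd
        push_cast
        ring
      rw [e1, gam_conv hd hg, gam_conv h2 hg, ← integral_sub (hI hd) (hI h2)]
      apply integral_congr_ae
      filter_upwards with τ
      push_cast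
      ring
    refine (conv_sup (D := fun τ => EE d τ - EE (2 * d) τ) (fun τ => EE_diff τ)
      ((EE_meas d).sub (EE_meas (2 * d))) hgm u hX).trans ?_
    gcongr
    exact (lp_const hd).trans (by norm_num)

/-- A Gaussian of width about `1` as a kernel. -/
theorem gam_ker {d : ℝ} (hd : 1 / 2 ≤ d) (hd1 : d ≤ 1) : Ker (gam d) d⁻¹ where
  meas := gam_meas d
  int := gam_integrable (by linarith)
  l1 := by
    rw [gam_lint_enorm (by linarith)]
    norm_num
  sup := by
    intro u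
    rw [abs_of_pos (gam_pos (by linarith) u)]
    exact gam_le (by linarith) u
  l2 := by
    intro g hg hgm u
    refine (gam_sup (by linarith) hg hgm u).trans ?_
    gcongr
    refine (LL_le (by linarith) hd1).trans ?_
    have h5 : (5 : ℝ≥0∞) = ENNReal.ofReal 5 := by simp
    rw [h5]
    apply ENNReal.ofReal_le_ofReal
    have h1 : Real.log (1 / d) ≤ Real.log 2 := by
      apply Real.log_le_log (by positivity)
      rw [div_le_iff₀ (by linarith)]
      linarith
    have := Real.log_two_lt_d9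
    linarith

/-- The maximal estimate for the kernels. -/
theorem Ker.sup_est {κ : ℝ → ℝ} {c : ℝ} (hκ : Ker κ c) {G : ℝ → ℂ → ℂ} {K R N : ℝ}
    (h : Nice G K R N) :
    ∫⁻ φ in Ioc (-π) π, ∫⁻ m, ⨆ u : ℚ,
        ‖∫ u', ((κ (u - u') : ℝ) : ℂ) * FF G φ m u'‖ₑ ^ 2 ≤
      5 * (ENNReal.ofReal (4 * π * R + 2) * ∫⁻ r, ∫⁻ y, ‖G r y‖ₑ ^ 2) := by
  have h1 : ∀ φ : ℝ, ∫⁻ m, ⨆ u : ℚ,
      ‖∫ u', ((κ (u - u') : ℝ) : ℂ) * FF G φ m u'‖ₑ ^ 2 ≤
        5 * ∫⁻ ξ : ℂ, (1 + ENNReal.ofReal |cy ξ φ|) * ‖BB G ξ (cx ξ φ)‖ₑ ^ 2 := by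
    intro φ
    rw [← h.slice φ, ← lintegral_const_mul' _ _ (by norm_num)]
    apply lintegral_mono
    intro m
    apply iSup_le
    intro u
    have hFm : Measurable (FF G φ m) :=
      h.FF_meas.comp (g := fun q : ℝ × (ℝ × ℝ) => FF G q.1 q.2.1 q.2.2)
        (f := fun u => (φ, (m, u))) (by fun_prop)
    exact hκ.l2 _ (h.FF_int φ m).1 hFm u
  calc _ ≤ ∫⁻ φ in Ioc (-π) π, 5 *
        ∫⁻ ξ : ℂ, (1 + ENNReal.ofReal |cy ξ φ|) * ‖BB G ξ (cx ξ φ)‖ₑ ^ 2 :=
        lintegral_mono fun φ => h1 φ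
    _ = 5 * ∫⁻ φ in Ioc (-π) π,
        ∫⁻ ξ : ℂ, (1 + ENNReal.ofReal |cy ξ φ|) * ‖BB G ξ (cx ξ φ)‖ₑ ^ 2 :=
        lintegral_const_mul' _ _ (by norm_num)
    _ ≤ _ := by
        gcongr
        exact h.main_freq

end Pool.Agent.N249.TF
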