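import Pool.Agent.N249.TF.Dual

set_option autoImplicit false

/-!
Families of tangent tubes: the `L^2` norm of the dual function.
-/

open MeasureTheory Set ENNReal Real

namespace Pool.Agent.N249.TF

open Pool.Agent.N249.LR

variable {k : ℕ}

/-- The integrals over the boxes. -/
noncomputable def Gv (A : Set ℝ) (M a b : ℝ) (h : Zf k → ℂ) (v : Fin k → ℝ) (r : ℝ) (y : ℂ) : ℂ :=
  (A ×ˢ {y : ℂ | ‖y‖ ≤ M}).indicator
    (fun q => ∫ p, (Bx a b v q.1).indicator (fun p => h (q.2, p)) p) (r, y)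

theorem Bx_joint (a b : ℝ) (v : Fin k → ℝ) :
    MeasurableSet {q : (ℝ × ℂ) × (ℝ × (Fin k → ℝ)) | q.2 ∈ Bx a b v q.1.1} := by
  have e : {q : (ℝ × ℂ) × (ℝ × (Fin k → ℝ)) | q.2 ∈ Bx a b v q.1.1} =
      {q | |q.2.1 + q.1.1 ^ 2| ≤ a} ∩ ⋂ i, {q | |q.2.2 i - q.1.1 * v i| ≤ b} := by
    ext q
    simp [Bx]
  rw [e]
  apply MeasurableSet.inter
  · exact measurableSet_le (by fun_prop) (by fun_prop)
  · exact MeasurableSet.iInter fun i => measurableSet_le (by fun_prop) (by fun_prop)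

theorem Gv_meas {A : Set ℝ} (hA : MeasurableSet A) (M a b : ℝ) {h : Zf k → ℂ} (hm : Measurable h)
    (v : Fin k → ℝ) : Measurable (Function.uncurry (Gv A M a b h v)) := by
  have e : Function.uncurry (Gv A M a b h v) = (A ×ˢ {y : ℂ | ‖y‖ ≤ M}).indicator
      (fun q => ∫ p, (Bx a b v q.1).indicator (fun p => h (q.2, p)) p) := by
    funext q
    rfl
  rw [e]
  have hM : MeasurableSet {y : ℂ | ‖y‖ ≤ M} := measurableSet_le (by fun_prop) (by fun_prop)
  apply Measurable.indicator _ (hA.prod hM)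
  have h1 : StronglyMeasurable (fun q : (ℝ × ℂ) × (ℝ × (Fin k → ℝ)) =>
      (Bx a b v q.1.1).indicator (fun p => h (q.1.2, p)) q.2) := by
    apply Measurable.stronglyMeasurable
    have e2 : (fun q : (ℝ × ℂ) × (ℝ × (Fin k → ℝ)) =>
        (Bx a b v q.1.1).indicator (fun p => h (q.1.2, p)) q.2) =
        {q : (ℝ × ℂ) × (ℝ × (Fin k → ℝ)) | q.2 ∈ Bx a b v q.1.1}.indicator
          (fun q => h (q.1.2, q.2)) := by
      funext q
      rfl
    rw [e2]
    apply Measurable.indicator _ (Bx_joint a b v)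
    exact hm.comp (by fun_prop)
  exact (h1.integral_prod_right' (ν := (volume : Measure (ℝ × (Fin k → ℝ))))).measurable

theorem bxv_ne_top (a b : ℝ) : bxv k a b ≠ ∞ := by
  unfold bxv
  exact ENNReal.mul_ne_top ENNReal.ofReal_ne_top (ENNReal.pow_ne_top ENNReal.ofReal_ne_top)

theorem Gv_nice {A : Set ℝ} (hA : MeasurableSet A) {M a b S K : ℝ} (hAS : ∀ r ∈ A, |r| ≤ S)
    (hS : 0 ≤ S) (hM : 0 ≤ M) {h : Zf k → ℂ} (hm : Measurable h) (hK : ∀ z, ‖h z‖ ≤ K)
    (v : Fin k → ℝ) : Nice (Gv A M a b h v) (K * (bxv k a b).toReal) S M where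
  meas := Gv_meas hA M a b hm v
  bd := by
    intro r y
    have hK0 : 0 ≤ K := (norm_nonneg _).trans (hK 0)
    unfold Gv
    by_cases hq : (r, y) ∈ A ×ˢ {y : ℂ | ‖y‖ ≤ M}
    · rw [indicator_of_mem hq, integral_indicator (Bx_meas a b v _)]
      refine (norm_setIntegral_le_of_norm_le_const (C := K) ?_ ?_).trans (le_of_eq ?_)
      · rw [Bx_vol]
        exact lt_top_iff_ne_top.2 (bxv_ne_top a b)
      · intro p _
        exact hK _
      · rw [measureReal_def, Bx_vol]
    · rw [indicator_of_notMem hq, norm_zero]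
      positivity
  supp_r := by
    intro r y hr
    unfold Gv
    rw [indicator_of_notMem]
    intro hc
    exact absurd (hAS r hc.1) (not_le.2 hr)
  supp_y := by
    intro r y hy
    unfold Gv
    rw [indicator_of_notMem]
    intro hc
    have : ‖y‖ ≤ M := hc.2
    exact absurd this (not_le.2 hy)
  K0 := by
    have hK0 : 0 ≤ K := (norm_nonneg _).trans (hK 0)
    positivity
  R0 := hS
  N0 := hM

/-- The kernel paired with a function. -/
theorem pair_eq {A : Set ℝ} (hA : MeasurableSet A) (hAf : volume A ≠ ∞) (M a b : ℝ) {κ : ℝ → ℝ}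
    {c : ℝ} (hκ : Ker κ c) {U : Yf k → ℝ} (hU : Measurable U) {h : Zf k → ℂ} (hm : Measurable h)
    {K : ℝ} (hK : ∀ z, ‖h z‖ ≤ K) (v : Fin k → ℝ) (φ m : ℝ) :
    ∫ z, h z * ((KK A M a b κ U ((v, (φ, m)), z) : ℝ) : ℂ) =
      ∫ u', ((κ (U (v, (φ, m)) - u') : ℝ) : ℂ) * FF (Gv A M a b h v) φ m u' := by
  have hKm : Measurable (fun z => ((KK A M a b κ U ((v, (φ, m)), z) : ℝ) : ℂ)) :=
    Complex.measurable_ofReal.comp ((KK_meas hA M a b hκ.meas hU).comp (by fun_prop))
  have hKi : Integrable (fun z => ((KK A M a b κ U ((v, (φ, m)), z) : ℝ) : ℂ)) := by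
    refine ⟨hKm.aestronglyMeasurable, ?_⟩
    rw [hasFiniteIntegral_iff_enorm]
    calc ∫⁻ z, ‖((KK A M a b κ U ((v, (φ, m)), z) : ℝ) : ℂ)‖ₑ
        = ∫⁻ z, ‖KK A M a b κ U ((v, (φ, m)), z)‖ₑ := by
          apply lintegral_congr
          intro z
          rw [← ofReal_norm, ← ofReal_norm, Complex.norm_real]
      _ ≤ 2 * (volume A * bxv k a b) := KK_int hA M a b hκ hU _
      _ < ∞ := ENNReal.mul_lt_top (by norm_num)
          (ENNReal.mul_lt_top (lt_top_iff_ne_top.2 hAf) (lt_top_iff_ne_top.2 (bxv_ne_top a b)))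
  have hi : Integrable (fun z => h z * ((KK A M a b κ U ((v, (φ, m)), z) : ℝ) : ℂ)) := by
    refine hKi.bdd_mul (c := K) hm.aestronglyMeasurable ?_
    filter_upwards with z
    exact hK z
  have hHm : Measurable (fun z => h z * ((KK A M a b κ U ((v, (φ, m)), z) : ℝ) : ℂ)) :=
    hm.mul hKm
  rw [chgB hHm hi φ m]
  apply integral_congr_ae
  filter_upwards with u'
  rw [FF, ← integral_const_mul]
  apply integral_congr_ae
  filter_upwards with r
  unfold Gv
  by_cases hq : (r, rot φ (m + r, u')) ∈ A ×ˢ {y : ℂ | ‖y‖ ≤ M}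
  · rw [indicator_of_mem hq, ← integral_const_mul]
    apply integral_congr_ae
    filter_upwards with p
    unfold KK
    by_cases hp : p ∈ Bx a b v r
    · have hc : (((v, (φ, m)), (rot φ (m + r, u'), p)) : Yf k × Zf k) ∈ CS A M a b := by
        refine ⟨?_, hq.2, ?_⟩
        · simp only [rr_rot]
          exact hq.1
        · simp only [rr_rot]
          exact hp
      rw [indicator_of_mem hc, indicator_of_mem hp, uu_rot, mul_comm]
    · have hc : (((v, (φ, m)), (rot φ (m + r, u'), p)) : Yf k × Zf k) ∉ CS A M a b := by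
        intro hc
        apply hp
        have := hc.2.2
        simp only [rr_rot] at this
        exact this
      rw [indicator_of_notMem hc, indicator_of_notMem hp]
      simp
  · rw [indicator_of_notMem hq, mul_zero]
    have h0 : ∀ p, h (rot φ (m + r, u'), p) *
        ((KK A M a b κ U ((v, (φ, m)), (rot φ (m + r, u'), p)) : ℝ) : ℂ) = 0 := by
      intro p
      unfold KK
      have hc : (((v, (φ, m)), (rot φ (m + r, u'), p)) : Yf k × Zf k) ∉ CS A M a b := by
        intro hc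
        apply hq
        refine ⟨?_, hc.2.1⟩
        have := hc.1
        simp only [rr_rot] at this
        exact this
      rw [indicator_of_notMem hc]
      simp
    simp [h0]

/-- The square of the integrals over the boxes. -/
theorem Gv_sq {A : Set ℝ} (M a b : ℝ) {h : Zf k → ℂ} (hm : Measurable h)
    (v : Fin k → ℝ) (r : ℝ) (y : ℂ) :
    ‖Gv A M a b h v r y‖ₑ ^ 2 ≤
      bxv k a b * (A.indicator (fun _ => 1) r * ∫⁻ p, Wt a b v r p * ‖h (y, p)‖ₑ ^ 2) := by
  have hset : ∀ g : ℝ × (Fin k → ℝ) → ℝ≥0∞,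
      ∫⁻ p, Wt a b v r p * g p = ∫⁻ p in Bx a b v r, g p := by
    intro g
    rw [← lintegral_indicator (Bx_meas a b v r)]
    apply lintegral_congr
    intro p
    unfold Wt
    by_cases hp : p ∈ Bx a b v r
    · rw [indicator_of_mem hp, indicator_of_mem hp, one_mul]
    · rw [indicator_of_notMem hp, indicator_of_notMem hp, zero_mul]
  unfold Gv
  by_cases hq : (r, y) ∈ A ×ˢ {y : ℂ | ‖y‖ ≤ M}
  · rw [indicator_of_mem hq, indicator_of_mem hq.1, one_mul, integral_indicator (Bx_meas a b v _),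
      hset]
    simp only
    have h1 := jensen (volume.restrict (Bx a b v r)) 0 (f := fun p => ‖h (y, p)‖ₑ)
      ((hm.comp (by fun_prop)).enorm).aemeasurable
    rw [Measure.restrict_apply_univ, Bx_vol] at h1
    simp only [zero_add, pow_one] at h1
    refine le_trans ?_ h1
    gcongr
    exact enorm_integral_le_lintegral_enorm _
  · rw [indicator_of_notMem hq]
    simp

/-- The `L^2` norm of the dual function, first step. -/
theorem FD_pair {A : Set ℝ} (hA : MeasurableSet A) (hAf : volume A ≠ ∞) (M a b : ℝ) {κ : ℝ → ℝ}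
    {c : ℝ} (hκ : Ker κ c) {U : Yf k → ℝ} (hU : Measurable U) {E : Set (Yf k)}
    (hE : volume E ≠ ∞) :
    ∫⁻ z, ‖FD A M a b κ U E z‖ₑ ^ 2 ≤
      ∫⁻ ω in E, ‖∫ z, ((FD A M a b κ U E z : ℝ) : ℂ) *
        ((KK A M a b κ U (ω, z) : ℝ) : ℂ)‖ₑ := by
  have hc0 : 0 ≤ c := (abs_nonneg _).trans (hκ.sup 0)
  set e : ℝ := (volume E).toReal with he
  have hFm := FD_meas hA M a b hκ.meas hU E
  set F := FD A M a b κ U E with hF
  have hFb : ∀ z, ‖F z‖ ≤ c * e := by
    intro z
    have h1 := FD_sup (A := A) (M := M) (a := a) (b := b) (U := U) hκ.sup E z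
    rw [← ofReal_norm, ← ENNReal.ofReal_toReal hE, ← ENNReal.ofReal_mul hc0] at h1
    exact (ENNReal.ofReal_le_ofReal_iff (by positivity)).1 h1
  have hFbe : ∀ z, ‖F z‖ₑ ≤ ENNReal.ofReal (c * e) := by
    intro z
    rw [← ofReal_norm]
    exact ENNReal.ofReal_le_ofReal (hFb z)
  have hF1 : ∫⁻ z, ‖F z‖ₑ < ∞ := by
    refine (FD_l1 hA M a b hκ hU E).trans_lt ?_
    exact ENNReal.mul_lt_top (ENNReal.mul_lt_top (by norm_num)
          (ENNReal.mul_lt_top (lt_top_iff_ne_top.2 hAf) (lt_top_iff_ne_top.2 (bxv_ne_top a b))))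
          (lt_top_iff_ne_top.2 hE)
  have hFi : Integrable F := ⟨hFm.aestronglyMeasurable, hasFiniteIntegral_iff_enorm.2 hF1⟩
  have hFFi : Integrable (fun z => F z * F z) :=
    hFi.bdd_mul (c := c * e) hFm.aestronglyMeasurable (by
      filter_upwards with z
      exact hFb z)
  have hcast : ∀ x : ℝ, ‖(x : ℂ)‖ₑ = ‖x‖ₑ := by
    intro x
    rw [← ofReal_norm, ← ofReal_norm, Complex.norm_real]
  -- the integrability on the product
  have hJ : Integrable (fun q : Zf k × Yf k => ((F q.1 : ℝ) : ℂ) *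
      ((KK A M a b κ U (q.2, q.1) : ℝ) : ℂ)) (volume.prod (volume.restrict E)) := by
    have hKm : Measurable (fun q : Zf k × Yf k => KK A M a b κ U (q.2, q.1)) :=
      (KK_meas hA M a b hκ.meas hU).comp (by fun_prop)
    have hKi : Integrable (fun q : Zf k × Yf k => ((KK A M a b κ U (q.2, q.1) : ℝ) : ℂ))
        (volume.prod (volume.restrict E)) := by
      refine ⟨(Complex.measurable_ofReal.comp hKm).aestronglyMeasurable, ?_⟩
      rw [hasFiniteIntegral_iff_enorm]
      simp only [hcast]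
      rw [lintegral_prod_symm _ hKm.enorm.aemeasurable]
      calc ∫⁻ ω in E, ∫⁻ z, ‖KK A M a b κ U (ω, z)‖ₑ ≤
          ∫⁻ _ω in E, 2 * (volume A * bxv k a b) :=
            lintegral_mono fun ω => KK_int hA M a b hκ hU ω
        _ = 2 * (volume A * bxv k a b) * volume E := by rw [setLIntegral_const]
        _ < ∞ := ENNReal.mul_lt_top (ENNReal.mul_lt_top (by norm_num)
          (ENNReal.mul_lt_top (lt_top_iff_ne_top.2 hAf) (lt_top_iff_ne_top.2 (bxv_ne_top a b))))
          (lt_top_iff_ne_top.2 hE)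
    refine hKi.bdd_mul (c := c * e) ?_ ?_
    · exact (Complex.measurable_ofReal.comp (hFm.comp measurable_fst)).aestronglyMeasurable
    · filter_upwards with q
      rw [Complex.norm_real]
      exact hFb q.1
  have e1 : ∫⁻ z, ‖F z‖ₑ ^ 2 = ENNReal.ofReal (∫ z, F z * F z) := by
    rw [ofReal_integral_eq_lintegral_ofReal hFFi
      (Filter.Eventually.of_forall fun z => mul_self_nonneg _)]
    apply lintegral_congr
    intro z
    rw [← ofReal_norm, ← ENNReal.ofReal_pow (norm_nonneg _)]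
    congr 1
    rw [Real.norm_eq_abs, sq_abs, sq]
  have e2 : ENNReal.ofReal (∫ z, F z * F z) = ‖∫ z, ((F z : ℝ) : ℂ) * ((F z : ℝ) : ℂ)‖ₑ := by
    have e3 : ∫ z, ((F z : ℝ) : ℂ) * ((F z : ℝ) : ℂ) = ((∫ z, F z * F z : ℝ) : ℂ) := by
      refine Eq.trans ?_ (integral_ofReal (𝕜 := ℂ) (f := fun z => F z * F z))
      apply integral_congr_ae
      filter_upwards with z
      change _ = ((F z * F z : ℝ) : ℂ)
      push_cast
      rfl
    rw [e3, hcast, ← ofReal_norm, Real.norm_of_nonneg (integral_nonneg fun z => mul_self_nonneg _)]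
  have e4 : ∫ z, ((F z : ℝ) : ℂ) * ((F z : ℝ) : ℂ) = ∫ z, ∫ ω in E, ((F z : ℝ) : ℂ) *
      ((KK A M a b κ U (ω, z) : ℝ) : ℂ) := by
    apply integral_congr_ae
    filter_upwards with z
    rw [integral_const_mul]
    congr 1
    rw [hF]
    unfold FD
    exact (integral_ofReal (𝕜 := ℂ) (μ := volume.restrict E)
      (f := fun ω => KK A M a b κ U (ω, z))).symm
  rw [e1, e2, e4, integral_integral_swap hJ]
  exact enorm_integral_le_lintegral_enorm _

/-- The `L^2` norm of the dual function. -/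
theorem FD_l2 {A : Set ℝ} (hA : MeasurableSet A) {M a b S ρ R : ℝ} (ha : 0 < a) (hb : 0 < b)
    (hab : b ^ 2 ≤ a) (hR : 0 ≤ R) (hM : 0 ≤ M) (hS : 0 ≤ S) (hρ : 0 < ρ)
    (hAS : ∀ r ∈ A, |r| ≤ S) (hAρ : ∀ r ∈ A, ρ ≤ |r|) {κ : ℝ → ℝ} {c : ℝ} (hκ : Ker κ c)
    {U : Yf k → ℝ} (hU : Measurable U) (hUQ : ∀ ω, ∃ u : ℚ, U ω = u) {E : Set (Yf k)}
    (hEm : MeasurableSet E) (hE : volume E ≠ ∞)
    (hEV : ∀ ω ∈ E, (∀ i, |ω.1 i| ≤ R) ∧ ω.2.1 ∈ Ioc (-π) π) :
    ∫⁻ z, ‖FD A M a b κ U E z‖ₑ ^ 2 ≤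
      volume E * (5 * (ENNReal.ofReal (4 * π * S + 2) *
        (bxv k a b ^ 2 * (ENNReal.ofReal (ρ⁻¹ ^ (k + 1)) * ENNReal.ofReal (3 * (1 + R) ^ k))))) := by
  have hAf : volume A ≠ ∞ := by
    have : volume A ≤ volume (Icc (-S) S) := measure_mono fun r hr => abs_le.1 (hAS r hr)
    refine (this.trans_lt ?_).ne
    rw [Real.volume_Icc]
    exact ENNReal.ofReal_lt_top
  have hc0 : 0 ≤ c := (abs_nonneg _).trans (hκ.sup 0)
  set e : ℝ := (volume E).toReal with he
  have hFm := FD_meas hA M a b hκ.meas hU E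
  have hpair := FD_pair hA hAf M a b hκ hU hE
  set F := FD A M a b κ U E with hF
  have hFbe : ∀ z, ‖F z‖ₑ ≤ ENNReal.ofReal c * volume E := FD_sup hκ.sup E
  have hFb : ∀ z, ‖F z‖ ≤ c * e := by
    intro z
    have h1 := hFbe z
    rw [← ofReal_norm, ← ENNReal.ofReal_toReal hE, ← ENNReal.ofReal_mul hc0] at h1
    exact (ENNReal.ofReal_le_ofReal_iff (by positivity)).1 h1
  have hF1 : ∫⁻ z, ‖F z‖ₑ < ∞ := by
    refine (FD_l1 hA M a b hκ hU E).trans_lt ?_
    exact ENNReal.mul_lt_top (ENNReal.mul_lt_top (by norm_num)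
          (ENNReal.mul_lt_top (lt_top_iff_ne_top.2 hAf) (lt_top_iff_ne_top.2 (bxv_ne_top a b))))
          (lt_top_iff_ne_top.2 hE)
  set X : ℝ≥0∞ := ∫⁻ z, ‖F z‖ₑ ^ 2 with hX
  have hXf : X ≠ ∞ := by
    refine (lt_of_le_of_lt ?_ (ENNReal.mul_lt_top
      (ENNReal.mul_lt_top (ENNReal.ofReal_lt_top (r := c)) (lt_top_iff_ne_top.2 hE)) hF1)).ne
    rw [← lintegral_const_mul _ hFm.enorm]
    apply lintegral_mono
    intro z
    beta_reduce
    rw [sq]
    exact mul_le_mul_left (hFbe z) _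
  set h : Zf k → ℂ := fun z => ((F z : ℝ) : ℂ) with hh
  have hhm : Measurable h := Complex.measurable_ofReal.comp hFm
  have hhK : ∀ z, ‖h z‖ ≤ c * e := by
    intro z
    rw [hh]
    simp only
    rw [Complex.norm_real]
    exact hFb z
  have hhe : ∀ z, ‖h z‖ₑ = ‖F z‖ₑ := by
    intro z
    rw [← ofReal_norm, ← ofReal_norm, hh]
    simp only
    rw [Complex.norm_real]
  set f : Yf k → ℝ≥0∞ := fun ω => ‖∫ z, h z * ((KK A M a b κ U (ω, z) : ℝ) : ℂ)‖ₑ with hf
  have hfm : Measurable f := by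
    have h1 : StronglyMeasurable (fun p : Yf k × Zf k => h p.2 *
        ((KK A M a b κ U p : ℝ) : ℂ)) := by
      apply Measurable.stronglyMeasurable
      exact (hhm.comp measurable_snd).mul
        (Complex.measurable_ofReal.comp (KK_meas hA M a b hκ.meas hU))
    exact (h1.integral_prod_right' (ν := (volume : Measure (Zf k)))).measurable.enorm
  set V : Set (Fin k → ℝ) := {v : Fin k → ℝ | ∀ i, |v i| ≤ R} with hV
  have hVm : MeasurableSet V := by
    have : V = Set.pi univ (fun _ => Icc (-R) R) := by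
      ext v
      simp only [hV, mem_ofPred_eq, mem_pi, mem_univ, forall_true_left, mem_Icc, abs_le]
    rw [this]
    exact MeasurableSet.univ_pi fun i => measurableSet_Icc
  set Φ : (Fin k → ℝ) → ℝ → ℝ → ℝ≥0∞ := fun v φ m => ⨆ u : ℚ,
    ‖∫ u', ((κ (u - u') : ℝ) : ℂ) * FF (Gv A M a b h v) φ m u'‖ₑ ^ 2 with hΦ
  have hfΦ : ∀ v φ m, f (v, (φ, m)) ^ 2 ≤ Φ v φ m := by
    intro v φ m
    obtain ⟨u, hu⟩ := hUQ (v, (φ, m))
    simp only [hf]
    rw [pair_eq hA hAf M a b hκ hU hhm hhK v φ m, hu]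
    exact le_iSup (fun u : ℚ => ‖∫ u', ((κ (u - u') : ℝ) : ℂ) *
      FF (Gv A M a b h v) φ m u'‖ₑ ^ 2) u
  have hsq : X ^ 2 ≤ volume E * ∫⁻ ω in E, f ω ^ 2 := by
    have h1 := jensen (volume.restrict E) 0 (f := f) hfm.aemeasurable
    rw [Measure.restrict_apply_univ] at h1
    simp only [zero_add, pow_one] at h1
    refine le_trans ?_ h1
    gcongr
  have hint : ∫⁻ ω in E, f ω ^ 2 ≤ ∫⁻ v in V, ∫⁻ φ in Ioc (-π) π, ∫⁻ m, Φ v φ m := by
    rw [← lintegral_indicator hEm]
    calc ∫⁻ ω, E.indicator (fun ω => f ω ^ 2) ω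
        ≤ ∫⁻ ω : Yf k, V.indicator (fun v => (Ioc (-π) π).indicator
            (fun φ => Φ v φ ω.2.2) ω.2.1) ω.1 := by
          apply lintegral_mono
          intro ω
          by_cases hω : ω ∈ E
          · rw [indicator_of_mem hω]
            beta_reduce
            rw [indicator_of_mem (show ω.1 ∈ V from (hEV ω hω).1),
              indicator_of_mem (hEV ω hω).2]
            exact hfΦ _ _ _
          · rw [indicator_of_notMem hω]
            exact zero_le
      _ ≤ ∫⁻ v, ∫⁻ q : ℝ × ℝ, V.indicator (fun v => (Ioc (-π) π).indicator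
            (fun φ => Φ v φ q.2) q.1) v := by
          rw [Measure.volume_eq_prod]
          exact lintegral_prod_le _
      _ ≤ ∫⁻ v, V.indicator (fun v => ∫⁻ φ in Ioc (-π) π, ∫⁻ m, Φ v φ m) v := by
          apply lintegral_mono
          intro v
          beta_reduce
          by_cases hv : v ∈ V
          · simp only [indicator_of_mem hv]
            rw [← lintegral_indicator measurableSet_Ioc, Measure.volume_eq_prod ℝ]
            refine (lintegral_prod_le _).trans ?_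
            apply lintegral_mono
            intro φ
            by_cases hφ : φ ∈ Ioc (-π) π
            · simp only [indicator_of_mem hφ]
              exact le_rfl
            · simp only [indicator_of_notMem hφ]
              simp
          · simp only [indicator_of_notMem hv]
            simp
      _ = _ := by rw [lintegral_indicator hVm]
  have hest : ∀ v, ∫⁻ φ in Ioc (-π) π, ∫⁻ m, Φ v φ m ≤
      5 * (ENNReal.ofReal (4 * π * S + 2) * ∫⁻ r, ∫⁻ y, ‖Gv A M a b h v r y‖ₑ ^ 2) := by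
    intro v
    exact hκ.sup_est (Gv_nice hA hAS hS hM hhm hhK v)
  set g : ℂ → ℝ × (Fin k → ℝ) → ℝ≥0∞ := fun y p => ‖h (y, p)‖ₑ ^ (2 / ((k : ℝ) + 3)) with hg
  have hgm : Measurable (Function.uncurry g) := by
    have : Function.uncurry g = fun z : Zf k => ‖h z‖ₑ ^ (2 / ((k : ℝ) + 3)) := by
      funext z
      rfl
    rw [this]
    exact hhm.enorm.pow_const _
  have hk3 : ((k : ℝ) + 3) ≠ 0 := by positivity
  have hgp : ∀ y p, g y p ^ (k + 3) = ‖h (y, p)‖ₑ ^ 2 := by
    intro y p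
    simp only [hg]
    rw [← ENNReal.rpow_natCast, ← ENNReal.rpow_mul, ← ENNReal.rpow_natCast]
    congr 1
    push_cast
    field_simp
  have hGa := Ga_int (k := k) ha hb hab hR hgm
  simp only [hgp] at hGa
  have hA0 : bxv k a b ≠ 0 := by
    unfold bxv
    have h1 : ENNReal.ofReal (2 * a) ≠ 0 := by
      rw [Ne, ENNReal.ofReal_eq_zero]; push Not; linarith
    have h2 : ENNReal.ofReal (2 * b) ^ k ≠ 0 := by
      apply pow_ne_zero
      rw [Ne, ENNReal.ofReal_eq_zero]; push Not; linarith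
    exact mul_ne_zero h1 h2
  have hAt := bxv_ne_top (k := k) a b
  have hGv : ∀ v r y, ‖Gv A M a b h v r y‖ₑ ^ 2 ≤ (bxv k a b ^ 2 * ENNReal.ofReal (ρ⁻¹ ^ (k + 1))) *
      (((bxv k a b)⁻¹ * ∫⁻ p, Wt a b v r p * ‖h (y, p)‖ₑ ^ 2) *
        ENNReal.ofReal (|r| + b) ^ (k + 1)) := by
    intro v r y
    refine (Gv_sq M a b hhm v r y).trans ?_
    by_cases hr : r ∈ A
    · rw [indicator_of_mem hr, one_mul]
      have h1 : 1 ≤ ENNReal.ofReal (ρ⁻¹ ^ (k + 1)) * ENNReal.ofReal (|r| + b) ^ (k + 1) := by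
        rw [← ENNReal.ofReal_pow (by positivity), ← ENNReal.ofReal_mul (by positivity),
          ← mul_pow, ← ENNReal.ofReal_one]
        apply ENNReal.ofReal_le_ofReal
        apply one_le_pow₀
        rw [inv_mul_eq_div, le_div_iff₀ hρ]
        linarith [hAρ r hr]
      set J : ℝ≥0∞ := ∫⁻ p, Wt a b v r p * ‖h (y, p)‖ₑ ^ 2
      calc bxv k a b * J = (bxv k a b * (bxv k a b * (bxv k a b)⁻¹)) * J * 1 := by
            rw [ENNReal.mul_inv_cancel hA0 hAt, mul_one, mul_one]
        _ ≤ (bxv k a b * (bxv k a b * (bxv k a b)⁻¹)) * J *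
            (ENNReal.ofReal (ρ⁻¹ ^ (k + 1)) * ENNReal.ofReal (|r| + b) ^ (k + 1)) := by gcongr
        _ = _ := by ring
    · rw [indicator_of_notMem hr]
      simp
  set C1 : ℝ≥0∞ := bxv k a b ^ 2 * ENNReal.ofReal (ρ⁻¹ ^ (k + 1)) with hC1
  have hC1t : C1 ≠ ∞ := ENNReal.mul_ne_top (ENNReal.pow_ne_top hAt) ENNReal.ofReal_ne_top
  have hall : ∫⁻ v in V, ∫⁻ φ in Ioc (-π) π, ∫⁻ m, Φ v φ m ≤
      5 * (ENNReal.ofReal (4 * π * S + 2) * (C1 * (ENNReal.ofReal (3 * (1 + R) ^ k) * X))) := by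
    calc ∫⁻ v in V, ∫⁻ φ in Ioc (-π) π, ∫⁻ m, Φ v φ m
        ≤ ∫⁻ v in V, 5 * (ENNReal.ofReal (4 * π * S + 2) *
            ∫⁻ r, ∫⁻ y, ‖Gv A M a b h v r y‖ₑ ^ 2) := lintegral_mono fun v => hest v
      _ ≤ ∫⁻ v in V, 5 * (ENNReal.ofReal (4 * π * S + 2) * (C1 *
            ∫⁻ r, ∫⁻ y, (((bxv k a b)⁻¹ * ∫⁻ p, Wt a b v r p * ‖h (y, p)‖ₑ ^ 2) *
        ENNReal.ofReal (|r| + b) ^ (k + 1)))) := by
          gcongr with v
          rw [← lintegral_const_mul' _ _ hC1t]
          apply lintegral_mono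
          intro r
          beta_reduce
          rw [← lintegral_const_mul' _ _ hC1t]
          apply lintegral_mono
          intro y
          exact hGv v r y
      _ = 5 * (ENNReal.ofReal (4 * π * S + 2) * (C1 *
            ∫⁻ v in V, ∫⁻ r, ∫⁻ y, (((bxv k a b)⁻¹ * ∫⁻ p, Wt a b v r p * ‖h (y, p)‖ₑ ^ 2) *
        ENNReal.ofReal (|r| + b) ^ (k + 1)))) := by
          rw [lintegral_const_mul' _ _ (by norm_num), lintegral_const_mul' _ _ ENNReal.ofReal_ne_top,
            lintegral_const_mul' _ _ hC1t]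
      _ ≤ _ := by
          gcongr
          refine hGa.trans (le_of_eq ?_)
          congr 1
          rw [hX, Measure.volume_eq_prod ℂ, lintegral_prod _ (hFm.enorm.pow_const _).aemeasurable]
          apply lintegral_congr
          intro y
          apply lintegral_congr
          intro p
          rw [hhe]
  set C2 : ℝ≥0∞ := volume E * (5 * (ENNReal.ofReal (4 * π * S + 2) *
        (C1 * ENNReal.ofReal (3 * (1 + R) ^ k)))) with hC2
  have hfin : X * X ≤ C2 * X := by
    rw [← sq]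
    refine hsq.trans ((mul_le_mul_right (hint.trans hall) _).trans (le_of_eq ?_))
    rw [hC2]
    ring
  have hres : X ≤ C2 := by
    by_cases hX0 : X = 0
    · rw [hX0]
      exact zero_le
    · exact (ENNReal.mul_le_mul_iff_left hX0 hXf).1 hfin
  refine hres.trans (le_of_eq ?_)
  rw [hC2, hC1]
  ring

end Pool.Agent.N249.TF
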