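import Pool.Agent.N249.TF.L2

set_option autoImplicit false

/-!
Families of tangent tubes: interpolation and exponents.
-/

open MeasureTheory Set ENNReal Real

namespace Pool.Agent.N249.TF

/-- Interpolation between `L^1`, `L^2` and `L^∞`. -/
theorem interp {α : Type*} [MeasurableSpace α] {μ : Measure α} {f : α → ℝ≥0∞}
    (hf : Measurable f) {q β : ℝ} (hβ : 0 ≤ β) (hβq : β ≤ q - 1) (hq2 : q ≤ 2) {s : ℝ≥0∞}
    (hs : ∀ z, f z ≤ s) :
    ∫⁻ z, f z ^ q ∂μ ≤ s ^ β * ((∫⁻ z, f z ∂μ) ^ (2 - q + β) *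
      (∫⁻ z, f z ^ 2 ∂μ) ^ (q - 1 - β)) := by
  have h1 : ∀ z, f z ^ q ≤ s ^ β * (f z ^ (2 - q + β) * (f z ^ 2) ^ (q - 1 - β)) := by
    intro z
    have e1 : q = β + ((2 - q + β) + 2 * (q - 1 - β)) := by ring
    have e2 : (f z ^ 2) ^ (q - 1 - β) = f z ^ (2 * (q - 1 - β)) := by
      rw [ENNReal.rpow_mul]
      congr 1
      exact (ENNReal.rpow_natCast _ 2).symm
    calc f z ^ q = f z ^ (β + ((2 - q + β) + 2 * (q - 1 - β))) := by rw [← e1]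
      _ = f z ^ β * (f z ^ (2 - q + β) * f z ^ (2 * (q - 1 - β))) := by
          rw [ENNReal.rpow_add_of_nonneg _ _ hβ (by linarith),
            ENNReal.rpow_add_of_nonneg _ _ (by linarith) (by linarith)]
      _ = f z ^ β * (f z ^ (2 - q + β) * (f z ^ 2) ^ (q - 1 - β)) := by rw [e2]
      _ ≤ _ := by
          gcongr
          exact hs z
  calc ∫⁻ z, f z ^ q ∂μ ≤ ∫⁻ z, s ^ β * (f z ^ (2 - q + β) * (f z ^ 2) ^ (q - 1 - β)) ∂μ :=
        lintegral_mono h1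
    _ = s ^ β * ∫⁻ z, f z ^ (2 - q + β) * (f z ^ 2) ^ (q - 1 - β) ∂μ := by
        apply lintegral_const_mul
        exact (hf.pow_const _).mul ((hf.pow_const _).pow_const _)
    _ ≤ _ := by
        gcongr
        exact ENNReal.lintegral_mul_norm_pow_le hf.aemeasurable (hf.pow_const 2).aemeasurable
          (by linarith) (by linarith) (by ring)

/-- The exponents. -/
theorem numer (k l : ℕ) {q β C N δ X : ℝ} (hC : 0 < C) (hN : 0 < N) (hδ : 0 < δ) (hX : 0 < X)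
    (hβ : 2 * β = q - ((k : ℝ) + 3) / ((k : ℝ) + 2)) :
    (C * N * δ ^ (k + 1) * X) ^ β *
      ((C * (N ^ (-(1 / ((k : ℝ) + 2))) * 2 ^ l) * N * δ ^ (2 * k + 3)) ^ (2 - q + β) *
      (C * N * δ ^ (3 * k + 4) * ((N ^ (-(1 / ((k : ℝ) + 2))) * 2 ^ l)⁻¹ ^ (k + 1))) ^
        (q - 1 - β)) =
    C ^ (1 + β) * (δ ^ (k + 1)) ^ q * (δ ^ (k + 2) * N ^ (1 + 2 * β)) * X ^ β *
      ((1 / 2) ^ (((k : ℝ) + 2) * β)) ^ l := by
  have hk : ((k : ℝ) + 2) ≠ 0 := by positivity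
  obtain ⟨c, rfl⟩ : ∃ c, C = Real.exp c := ⟨Real.log C, (Real.exp_log hC).symm⟩
  obtain ⟨n, rfl⟩ : ∃ n, N = Real.exp n := ⟨Real.log N, (Real.exp_log hN).symm⟩
  obtain ⟨d, rfl⟩ : ∃ d, δ = Real.exp d := ⟨Real.log δ, (Real.exp_log hδ).symm⟩
  obtain ⟨x, rfl⟩ : ∃ x, X = Real.exp x := ⟨Real.log X, (Real.exp_log hX).symm⟩
  have h2 : (2 : ℝ) = Real.exp (Real.log 2) := (Real.exp_log (by norm_num)).symm
  have h12 : (1 / 2 : ℝ) = Real.exp (-Real.log 2) := by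
    rw [Real.exp_neg, Real.exp_log (by norm_num)]
    norm_num
  have hq : q = 2 * β + ((k : ℝ) + 3) / ((k : ℝ) + 2) := by linarith
  set L2 : ℝ := Real.log 2
  have e2l : (2 : ℝ) ^ l = Real.exp ((l : ℝ) * L2) := by
    conv_lhs => rw [h2]
    rw [← Real.exp_nat_mul]
  rw [e2l, h12]
  simp only [← Real.exp_nat_mul, ← Real.exp_mul, ← Real.exp_add, ← Real.exp_neg]
  congr 1
  rw [hq]
  push_cast
  field_simp
  ring

/-- The exponents for the part near the tangent points. -/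
theorem numer0 (k : ℕ) {q β C N δ : ℝ} (hC : 0 < C) (hN : 0 < N) (hδ : 0 < δ)
    (hβ : 2 * β = q - ((k : ℝ) + 3) / ((k : ℝ) + 2)) :
    (C * N * δ ^ (k + 1)) ^ (q - 1) * (C * N ^ (-(1 / ((k : ℝ) + 2))) * N * δ ^ (2 * k + 3)) =
      C ^ q * ((δ ^ (k + 1)) ^ q * (δ ^ (k + 2) * N ^ (1 + 2 * β))) := by
  have hk : ((k : ℝ) + 2) ≠ 0 := by positivity
  obtain ⟨c, rfl⟩ : ∃ c, C = Real.exp c := ⟨Real.log C, (Real.exp_log hC).symm⟩
  obtain ⟨n, rfl⟩ : ∃ n, N = Real.exp n := ⟨Real.log N, (Real.exp_log hN).symm⟩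
  obtain ⟨d, rfl⟩ : ∃ d, δ = Real.exp d := ⟨Real.log δ, (Real.exp_log hδ).symm⟩
  have hq : q = 2 * β + ((k : ℝ) + 3) / ((k : ℝ) + 2) := by linarith
  simp only [← Real.exp_nat_mul, ← Real.exp_mul, ← Real.exp_add]
  congr 1
  rw [hq]
  push_cast
  field_simp
  ring

end Pool.Agent.N249.TF
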