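import Pool.Agent.N249.TF.Num

set_option autoImplicit false

/-!
Families of tangent tubes: the sum of the pieces.
-/

open MeasureTheory Set ENNReal Real

namespace Pool.Agent.N249.TF

open Pool.Agent.N249.LR

variable {k : ℕ}

theorem bxv_eq {ca cb δ : ℝ} (hca : 0 < ca) (hcb : 0 < cb) (hδ : 0 < δ) :
    bxv k (ca * δ) (cb * δ) = ENNReal.ofReal (2 * ca * (2 * cb) ^ k * δ ^ (k + 1)) := by
  unfold bxv
  rw [← ENNReal.ofReal_pow (by positivity), ← ENNReal.ofReal_mul (by positivity)]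
  congr 1
  have : (2 * (cb * δ)) ^ k = (2 * cb) ^ k * δ ^ k := by
    rw [← mul_pow]; congr 1; ring
  rw [this, pow_succ]
  ring

/-- The data of a family. -/
structure Fam (k : ℕ) (R cE δ N : ℝ) (U : Yf k → ℝ) (E : Set (Yf k)) : Prop where
  Um : Measurable U
  UQ : ∀ ω, ∃ u : ℚ, U ω = u
  Em : MeasurableSet E
  EV : ∀ ω ∈ E, (∀ i, |ω.1 i| ≤ R) ∧ ω.2.1 ∈ Ioc (-π) π
  Ev : volume E ≤ ENNReal.ofReal (cE * N * δ ^ (k + 2))

theorem Fam.fin {R cE δ N : ℝ} {U : Yf k → ℝ} {E : Set (Yf k)} (h : Fam k R cE δ N U E) :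
    volume E ≠ ∞ := (h.Ev.trans_lt ENNReal.ofReal_lt_top).ne

/-- The common constant. -/
noncomputable def CC (k : ℕ) (R S ca cb cE : ℝ) : ℝ :=
  cE + 8 * (2 * ca * (2 * cb) ^ k) * cE +
    cE * (5 * ((4 * π * S + 2) * ((2 * ca * (2 * cb) ^ k) ^ 2 * (3 * (1 + R) ^ k))))

theorem piece {R S M ca cb cE q β δ N : ℝ} (hR : 0 ≤ R) (hS : 0 ≤ S) (hM : 0 ≤ M) (hca : 0 < ca)
    (hcb : 0 < cb) (hcab : cb ^ 2 ≤ ca) (hcE : 0 < cE) (hβ0 : 0 < β) (hβ1 : β ≤ q - 1)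
    (hq2 : q ≤ 2) (hβ : 2 * β = q - ((k : ℝ) + 3) / ((k : ℝ) + 2)) (hδ : 0 < δ) (hδ1 : δ ≤ 1)
    (hN : 0 < N) {U : Yf k → ℝ} {E : Set (Yf k)} (hF : Fam k R cE δ N U E) {l i : ℕ}
    {A : Set ℝ} (hA : MeasurableSet A) (hAS : ∀ r ∈ A, |r| ≤ S)
    (hAρ : ∀ r ∈ A, N ^ (-(1 / ((k : ℝ) + 2))) * 2 ^ l ≤ |r|)
    (hAρ' : ∀ r ∈ A, |r| ≤ 2 * (N ^ (-(1 / ((k : ℝ) + 2))) * 2 ^ l))
    {κ : ℝ → ℝ} (hκ : Ker κ (δ * 2 ^ i)⁻¹) :
    ∫⁻ z, ‖FD A M (ca * δ) (cb * δ) κ U E z‖ₑ ^ q ≤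
      ENNReal.ofReal (CC k R S ca cb cE ^ (1 + β) * (δ ^ (k + 1)) ^ q *
        (δ ^ (k + 2) * N ^ (1 + 2 * β)) * ((1 / 2) ^ i) ^ β * ((1 / 2) ^ (((k : ℝ) + 2) * β)) ^ l) := by
  set C := CC k R S ca cb cE with hC
  set B : ℝ := 2 * ca * (2 * cb) ^ k with hB
  have hB0 : 0 < B := by rw [hB]; positivity
  have hπ := Real.pi_pos
  have hC1 : cE ≤ C := by
    rw [hC, CC, ← hB]
    have h1 : 0 ≤ 8 * B * cE := by positivity
    have h2 : 0 ≤ cE * (5 * ((4 * π * S + 2) * (B ^ 2 * (3 * (1 + R) ^ k)))) := by positivity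
    linarith
  have hC2 : 8 * B * cE ≤ C := by
    rw [hC, CC, ← hB]
    have h2 : 0 ≤ cE * (5 * ((4 * π * S + 2) * (B ^ 2 * (3 * (1 + R) ^ k)))) := by positivity
    linarith
  have hC3 : cE * (5 * ((4 * π * S + 2) * (B ^ 2 * (3 * (1 + R) ^ k)))) ≤ C := by
    rw [hC, CC, ← hB]
    have h1 : 0 ≤ 8 * B * cE := by positivity
    linarith
  have hC0 : 0 < C := lt_of_lt_of_le hcE hC1
  set ρ : ℝ := N ^ (-(1 / ((k : ℝ) + 2))) * 2 ^ l with hρ
  have hρ0 : 0 < ρ := by rw [hρ]; positivity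
  have hbx := bxv_eq (k := k) hca hcb hδ
  rw [← hB] at hbx
  -- the bound of the maximum
  have hsup : ∀ z, ‖FD A M (ca * δ) (cb * δ) κ U E z‖ₑ ≤
      ENNReal.ofReal (C * N * δ ^ (k + 1) * (1 / 2) ^ i) := by
    intro z
    refine (FD_sup hκ.sup E z).trans ?_
    calc ENNReal.ofReal (δ * 2 ^ i)⁻¹ * volume E
        ≤ ENNReal.ofReal (δ * 2 ^ i)⁻¹ * ENNReal.ofReal (cE * N * δ ^ (k + 2)) := by
          gcongr
          exact hF.Ev
      _ = ENNReal.ofReal (cE * (N * δ ^ (k + 1) * (1 / 2) ^ i)) := by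
          rw [← ENNReal.ofReal_mul (by positivity)]
          congr 1
          rw [pow_succ δ (k + 1), one_div, inv_pow]
          field_simp
      _ ≤ ENNReal.ofReal (C * (N * δ ^ (k + 1) * (1 / 2) ^ i)) := by
          apply ENNReal.ofReal_le_ofReal
          apply mul_le_mul_of_nonneg_right hC1
          positivity
      _ = _ := by congr 1; ring
  have hvA : volume A ≤ ENNReal.ofReal (4 * ρ) := by
    calc volume A ≤ volume (Icc (-(2 * ρ)) (2 * ρ)) :=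
          measure_mono fun r hr => abs_le.1 (hAρ' r hr)
      _ = _ := by
          rw [Real.volume_Icc]
          congr 1
          ring
  have hl1 : ∫⁻ z, ‖FD A M (ca * δ) (cb * δ) κ U E z‖ₑ ≤
      ENNReal.ofReal (C * ρ * N * δ ^ (2 * k + 3)) := by
    refine (FD_l1 hA M (ca * δ) (cb * δ) hκ hF.Um E).trans ?_
    calc 2 * (volume A * bxv k (ca * δ) (cb * δ)) * volume E
        ≤ ENNReal.ofReal 2 * (ENNReal.ofReal (4 * ρ) * ENNReal.ofReal (B * δ ^ (k + 1))) *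
          ENNReal.ofReal (cE * N * δ ^ (k + 2)) := by
          rw [hbx]
          gcongr
          · simp
          · exact hF.Ev
      _ = ENNReal.ofReal ((8 * B * cE) * (ρ * N * δ ^ (2 * k + 3))) := by
          rw [← ENNReal.ofReal_mul (by positivity), ← ENNReal.ofReal_mul (by positivity),
            ← ENNReal.ofReal_mul (by positivity)]
          congr 1
          have : δ ^ (2 * k + 3) = δ ^ (k + 1) * δ ^ (k + 2) := by
            rw [← pow_add]; congr 1; ring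
          rw [this]
          ring
      _ ≤ ENNReal.ofReal (C * (ρ * N * δ ^ (2 * k + 3))) := by
          apply ENNReal.ofReal_le_ofReal
          apply mul_le_mul_of_nonneg_right hC2
          positivity
      _ = _ := by congr 1; ring
  have hab : (cb * δ) ^ 2 ≤ ca * δ := by
    rw [mul_pow]
    have h1 : δ ^ 2 ≤ δ := by nlinarith
    exact mul_le_mul hcab h1 (by positivity) hca.le
  have hl2 : ∫⁻ z, ‖FD A M (ca * δ) (cb * δ) κ U E z‖ₑ ^ 2 ≤
      ENNReal.ofReal (C * N * δ ^ (3 * k + 4) * (ρ⁻¹ ^ (k + 1))) := by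
    refine (FD_l2 hA (by positivity) (by positivity) hab hR hM hS hρ0 hAS hAρ hκ hF.Um hF.UQ
      hF.Em hF.fin hF.EV).trans ?_
    calc volume E * (5 * (ENNReal.ofReal (4 * π * S + 2) * (bxv k (ca * δ) (cb * δ) ^ 2 *
          (ENNReal.ofReal (ρ⁻¹ ^ (k + 1)) * ENNReal.ofReal (3 * (1 + R) ^ k)))))
        ≤ ENNReal.ofReal (cE * N * δ ^ (k + 2)) * (ENNReal.ofReal 5 * (ENNReal.ofReal (4 * π * S + 2) *
          (ENNReal.ofReal ((B * δ ^ (k + 1)) ^ 2) *
          (ENNReal.ofReal (ρ⁻¹ ^ (k + 1)) * ENNReal.ofReal (3 * (1 + R) ^ k))))) := by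
          rw [hbx, ← ENNReal.ofReal_pow (by positivity : 0 ≤ B * δ ^ (k + 1))]
          gcongr
          · exact hF.Ev
          · simp
      _ = ENNReal.ofReal ((cE * (5 * ((4 * π * S + 2) * (B ^ 2 * (3 * (1 + R) ^ k))))) *
          (N * δ ^ (3 * k + 4) * (ρ⁻¹ ^ (k + 1)))) := by
          rw [← ENNReal.ofReal_mul (by positivity), ← ENNReal.ofReal_mul (by positivity),
            ← ENNReal.ofReal_mul (by positivity), ← ENNReal.ofReal_mul (by positivity),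
            ← ENNReal.ofReal_mul (by positivity)]
          congr 1
          have : δ ^ (3 * k + 4) = δ ^ (k + 2) * (δ ^ (k + 1)) ^ 2 := by
            rw [← pow_mul, ← pow_add]; congr 1; ring
          rw [this]
          ring
      _ ≤ ENNReal.ofReal (C * (N * δ ^ (3 * k + 4) * (ρ⁻¹ ^ (k + 1)))) := by
          apply ENNReal.ofReal_le_ofReal
          apply mul_le_mul_of_nonneg_right hC3
          positivity
      _ = _ := by congr 1; ring
  have hX : (0 : ℝ) < (1 / 2) ^ i := by positivity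
  have hnum := numer k l (q := q) (β := β) hC0 hN hδ hX hβ
  rw [← hρ] at hnum
  rw [← hnum]
  have hY1 : 0 < C * N * δ ^ (k + 1) * (1 / 2) ^ i := by positivity
  have hY2 : 0 < C * ρ * N * δ ^ (2 * k + 3) := by positivity
  have hY3 : 0 < C * N * δ ^ (3 * k + 4) * (ρ⁻¹ ^ (k + 1)) := by positivity
  refine (interp (FD_meas hA M (ca * δ) (cb * δ) hκ.meas hF.Um E).enorm hβ0.le hβ1 hq2 hsup).trans ?_
  generalize C * N * δ ^ (k + 1) * (1 / 2) ^ i = Y1 at hY1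
  generalize C * ρ * N * δ ^ (2 * k + 3) = Y2 at hY2 hl1
  generalize C * N * δ ^ (3 * k + 4) * (ρ⁻¹ ^ (k + 1)) = Y3 at hY3 hl2
  rw [ENNReal.ofReal_mul (by positivity), ENNReal.ofReal_mul (by positivity),
    ← ENNReal.ofReal_rpow_of_pos hY1, ← ENNReal.ofReal_rpow_of_pos hY2,
    ← ENNReal.ofReal_rpow_of_pos hY3]
  gcongr

end Pool.Agent.N249.TF
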